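import Pool.Agent.H71.LOC.Near2

set_option autoImplicit false
set_option linter.unusedSectionVars false

/-!
# Locating sets with few copies, in graphs whose vertices are pairwise distinguished by many vertices
-/

namespace Pool.Agent.H71.LOC

open Finset Classical
open Pool.Agent.H234RC (Hypo NonIso Reconstructible exists_hypo)

variable {V : Type} [Fintype V]

/-- the numerical end of the proof -/
theorem finish3 {G : SimpleGraph V}
    {D : Finset V} (hloc : Loc G D) {A : ℝ} (hA : Real.logb 2 ((pe G G D).card : ℝ) ≤ A)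
    (_hA0 : 0 ≤ A) (hnum : 2 + 2 * A + (D.card : ℝ) < (Fintype.card V : ℝ)) :
    ∃ D : Finset V, Loc G D ∧ 4 * (pe G G D).card ^ 2 < 2 ^ (Fintype.card V - D.card) := by
  refine ⟨D, hloc, ?_⟩
  by_contra hcon
  have e9 : 2 ^ (Fintype.card V - D.card) ≤ 4 * (pe G G D).card ^ 2 := not_lt.mp hcon
  have hDn : D.card ≤ Fintype.card V := card_le_univ D
  have hP : 0 < (pe G G D).card := by
    rcases Nat.eq_zero_or_pos (pe G G D).card with h0 | h0
    · rw [h0] at e9
      have := Nat.one_le_two_pow (n := Fintype.card V - D.card)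
      omega
    · exact h0
  have hPr : (0 : ℝ) < (pe G G D).card := by exact_mod_cast hP
  have e10 : (2 : ℝ) ^ (Fintype.card V - D.card) ≤ 4 * ((pe G G D).card : ℝ) ^ 2 := by
    exact_mod_cast e9
  have e11 := Real.logb_le_logb_of_le (b := 2) (by norm_num) (by positivity) e10
  rw [Real.logb_pow, Real.logb_self_eq_one (by norm_num), mul_one,
    Real.logb_mul (by norm_num) (by positivity), Real.logb_pow, Nat.cast_sub hDn] at e11
  have e12 : Real.logb 2 4 = 2 := by
    have : (4 : ℝ) = 2 ^ (2 : ℕ) := by norm_num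
    rw [this, Real.logb_pow, Real.logb_self_eq_one (by norm_num)]
    norm_num
  rw [e12] at e11
  push_cast at e11
  linarith

/-- **The locating set of Theorem N.** -/
theorem exLocN (G : SimpleGraph V) (h3 : 3 ≤ Fintype.card V) (Δ : ℕ) (hΔ2 : 2 ≤ Δ)
    (hΔ : DegLE G Δ) (B R : Finset V) (τ : V → Finset V) (k : ℕ)
    (hB : 128 * (B.card : ℝ) * Real.logb 2 Δ ≤ Fintype.card V)
    (hR : 128 * (R.card : ℝ) * (1 + Real.logb 2 (k + 1)) ≤ Fintype.card V)
    (hτR : ∀ x, x ∉ R → τ x = ∅) (hτk : ∀ x, (τ x).card ≤ k)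
    (hRdeg : ∀ x ∈ R, 1024 * Real.logb 2 Δ ≤ ((nb G x).card : ℝ))
    (h : ∀ x y : V, x ∉ B → y ∉ B → x ≠ y → Near G x y → y ∉ τ x →
      2048 * Real.logb 2 Δ ≤ (dst G x y : ℝ)) (hcut : CutConn G) :
    ∃ D : Finset V, Loc G D ∧ 4 * (pe G G D).card ^ 2 < 2 ^ (Fintype.card V - D.card) := by
  have hΔr : (2 : ℝ) ≤ Δ := by exact_mod_cast hΔ2
  have hn3 : (3 : ℝ) ≤ Fintype.card V := by exact_mod_cast h3
  have hneV : Nonempty V := Fintype.card_pos_iff.mp (by omega)
  have hconn : G.Connected := conn_of_cut hneV hcut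
  have hdeg : ∀ v, ∃ w, G.Adj v w := by
    intro v
    have h1 : ∃ b, b ∉ ({v} : Finset V) := by
      by_contra hcon
      push Not at hcon
      have h2 : (univ : Finset V).card ≤ ({v} : Finset V).card :=
        card_le_card (fun x _ => hcon x)
      rw [card_univ, card_singleton] at h2
      omega
    obtain ⟨x, hx, y, _, hxy⟩ := hcut {v} (singleton_nonempty v) h1
    rw [mem_singleton] at hx
    exact ⟨y, hx ▸ hxy⟩
  set L : ℝ := Real.logb 2 Δ with hL
  have hL1 : 1 ≤ L := by
    have h1 : Real.logb 2 2 ≤ Real.logb 2 (Δ : ℝ) :=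
      Real.logb_le_logb_of_le (by norm_num) (by norm_num) hΔr
    rw [Real.logb_self_eq_one (by norm_num)] at h1
    exact h1
  -- some degree is large
  have hbig : ∃ v, 1024 * L ≤ ((nb G v).card : ℝ) := by
    by_contra hlt
    push Not at hlt
    have hR0 : ∀ x, x ∉ R := fun x hx => absurd (hRdeg x hx) (not_le.mpr (hlt x))
    have h' : ∀ x y : V, x ∉ B → x ∉ R → y ∉ B → x ≠ y → Near G x y →
        2 * (1024 * L) ≤ (dst G x y : ℝ) := by
      intro x y hx hxR hy hxy hn
      have := h x y hx hy hxy hn (by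
        rw [hτR x hxR]
        exact notMem_empty y)
      linarith
    have h1 : Bᶜ ⊆ (low G B R (1024 * L)).filter (fun x => ∃ b ∈ B, G.Adj x b) := by
      intro x hx
      rw [mem_compl] at hx
      refine mem_filter.mpr ⟨mem_low.mpr ⟨hx, hR0 x, hlt x⟩, ?_⟩
      by_contra hcon
      obtain ⟨y, hxy⟩ := hdeg x
      have hy : y ∉ B := fun hy => hcon ⟨y, hy, hxy⟩
      have h2 := h' x y hx (hR0 x) hy (G.ne_of_adj hxy) (near_one hxy)
      have h4 : (dst G x y : ℝ) ≤ (nb G x).card + (nb G y).card := by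
        exact_mod_cast dst_le_nb G x y
      linarith [hlt x, hlt y]
    have h2 := (card_le_card h1).trans (low_one h')
    rw [card_compl] at h2
    have h4 : (128 : ℝ) * B.card ≤ Fintype.card V := by
      have h0 : (0 : ℝ) ≤ 128 * (B.card : ℝ) := by positivity
      nlinarith
    have h5 : 128 * B.card ≤ Fintype.card V := by exact_mod_cast h4
    omega
  obtain ⟨v0, hv0⟩ := hbig
  have hΔL : 1024 * L ≤ Δ := by
    have : ((nb G v0).card : ℝ) ≤ Δ := by exact_mod_cast hΔ v0
    linarith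
  have hLn : 1024 * L ≤ Fintype.card V := by
    have : ((nb G v0).card : ℝ) ≤ Fintype.card V := by exact_mod_cast card_le_univ (nb G v0)
    linarith
  have hpow : ∀ j : ℕ, 2 ^ j ≤ Δ → (j : ℝ) ≤ L := by
    intro j hj
    have h1 : ((2 ^ j : ℕ) : ℝ) ≤ (Δ : ℝ) := by exact_mod_cast hj
    push_cast at h1
    have h2 := Real.logb_le_logb_of_le (b := 2) (by norm_num) (by positivity) h1
    rw [Real.logb_pow, Real.logb_self_eq_one (by norm_num), mul_one] at h2
    exact h2
  have h10 : 2 ^ 10 ≤ Δ := by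
    have h1 : (1024 : ℝ) ≤ Δ := by linarith
    have h2 : (1024 : ℕ) ≤ Δ := by exact_mod_cast h1
    omega
  have hL10 := hpow 10 h10
  norm_num at hL10
  have h13 : 2 ^ 13 ≤ Δ := by
    have h1 : (10240 : ℝ) ≤ Δ := by linarith
    have h2 : (10240 : ℕ) ≤ Δ := by exact_mod_cast h1
    omega
  have hL13 := hpow 13 h13
  norm_num at hL13
  -- the sets
  obtain ⟨D', B1, hBB, hD'1, hB1, hdegD, hsepD⟩ := pick G Δ hΔ2 hΔ B R τ hτR h hdeg hRdeg
  obtain ⟨T0, hT0, hT0dom⟩ := pack G D' B1 (by linarith : (0 : ℝ) < 8 * L) hdegD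
  have hdom : ∀ v, ∃ s ∈ B1 ∪ T0, G.dist v s ≤ 2 := by
    intro v
    by_cases hv : v ∈ B1
    · exact ⟨v, mem_union_left _ hv, by simp⟩
    · obtain ⟨u, _, t, ht, h1, h2⟩ := hT0dom v hv
      exact ⟨t, mem_union_right _ ht,
        SimpleGraph.dist_le (SimpleGraph.Walk.cons h1 (SimpleGraph.Walk.cons h2 .nil))⟩
  have hSne : (B1 ∪ T0).Nonempty := by
    obtain ⟨s, hs, _⟩ := hdom v0
    exact ⟨s, hs⟩
  obtain ⟨T, hT1, hT2, hT3⟩ := extend2 hconn hSne hdom
  have hTB : ∀ v, v ∉ T → v ∉ B1 := fun v hv h1 => hv (hT1 (mem_union_left _ h1))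
  have hmono : ∀ x y, ((dset G D' x y).card : ℝ) ≤ ((dset G (D' ∪ R ∪ T) x y).card : ℝ) := by
    intro x y
    have h1 : dset G D' x y ⊆ dset G (D' ∪ R ∪ T) x y :=
      filter_subset_filter _ (subset_union_left.trans subset_union_left)
    exact_mod_cast card_le_card h1
  have hloc : Loc G (D' ∪ R ∪ T) := by
    intro x y hx hy hxy
    by_contra hne
    have hx1 : x ∉ B1 := hTB x (fun h' => hx (mem_union_right _ h'))
    have hy1 : y ∉ B1 := hTB y (fun h' => hy (mem_union_right _ h'))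
    have hxR : x ∉ R := fun h' => hx (mem_union_left _ (mem_union_right _ h'))
    have h1 := hdegD x hx1
    have h2 : (nb G x ∩ D').Nonempty := by
      rw [← card_pos]
      have : (0 : ℝ) < ((nb G x ∩ D').card : ℝ) := by linarith
      exact_mod_cast this
    obtain ⟨u, hu⟩ := h2
    rw [mem_inter, mem_nb] at hu
    have hyu := (hxy u (mem_union_left _ (mem_union_left _ hu.2))).mp hu.1
    have hF : Four G x y := ⟨u, x, u, hu.1, hu.1.symm, hu.1, hyu.symm⟩
    have h4 := hsepD x y hx1 hy1 hne hF (by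
      rw [hτR x hxR]
      exact notMem_empty y)
    have h5 : (dset G D' x y).Nonempty := by
      rw [← card_pos]
      have : (0 : ℝ) < ((dset G D' x y).card : ℝ) := by linarith
      exact_mod_cast this
    obtain ⟨z, hz⟩ := h5
    unfold dset at hz
    rw [mem_filter] at hz
    exact hz.2.2.2 (hxy z (mem_union_left _ (mem_union_left _ hz.1)))
  have hsq := log_sq_le hL13
  have haut := aut_bound hΔ2 hΔ (D := D' ∪ R ∪ T) (T := T) (q := 16 * L) (σ := 8 * L ^ 2)
    (fun v _ hv => by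
      obtain ⟨u, hu, t, ht, h1, h2⟩ := hT0dom v (hTB v hv)
      exact ⟨u, mem_union_left _ (mem_union_left _ hu), t, hT1 (mem_union_right _ ht), h1, h2⟩)
    subset_union_right (by linarith) (by nlinarith) (by rw [← hL]; nlinarith)
    (by nlinarith) τ R k hτR hτk
    (fun x y hx hy hxy hF hτ =>
      (hsepD x y (hTB x hx) (hTB y hy) hxy hF hτ).trans (hmono x y))
  rw [← hL] at haut
  -- the numerical inequality
  have hDc : (((D' ∪ R ∪ T).card : ℕ) : ℝ) ≤ D'.card + R.card + T.card := by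
    have h1 := card_union_le (D' ∪ R) T
    have h2 := card_union_le D' R
    have h4 : (D' ∪ R ∪ T).card ≤ D'.card + R.card + T.card := by omega
    exact_mod_cast h4
  have hTc : (T.card : ℝ) ≤ 5 * (B1.card + T0.card) := by
    have h1 := card_union_le B1 T0
    have h2 : T.card ≤ 5 * (B1.card + T0.card) := by
      refine hT3.trans ?_
      norm_num
      omega
    exact_mod_cast h2
  have hD'r : (64 : ℝ) * D'.card ≤ Fintype.card V := by exact_mod_cast hD'1
  have hk0 : (0 : ℝ) ≤ k := Nat.cast_nonneg _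
  have hκ0 : 0 ≤ Real.logb 2 ((k : ℝ) + 1) := Real.logb_nonneg (by norm_num) (by linarith)
  have hnum := num6 (n := Fintype.card V) (Δ := Δ) (L := L) (b := B.card) (b1 := B1.card)
    (t0 := T0.card) (t := T.card) (d' := D'.card) (r := R.card) (κ := Real.logb 2 ((k : ℝ) + 1))
    (d := (D' ∪ R ∪ T).card) hL13 hΔL hLn hB hB1 hT0
    hD'r hTc (Nat.cast_nonneg _) hκ0 hR hDc (Nat.cast_nonneg _)
  -- the number of embeddings
  have hcount := emb_count G (D := D' ∪ R ∪ T) (T := T) subset_union_right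
  have hgrow := pe_grow hΔ hT2
  have hDn : (D' ∪ R ∪ T).card ≤ Fintype.card V := card_le_univ _
  have hn0 : (0 : ℝ) < Fintype.card V := by linarith
  have hg0 : (0 : ℝ) < gc (fixAut G (D' ∪ R ∪ T) T) := by exact_mod_cast gc_pos _
  have hch0 : (0 : ℝ) < ((Fintype.card V).choose (D' ∪ R ∪ T).card : ℕ) := by
    exact_mod_cast Nat.choose_pos hDn
  have hlogn : 0 ≤ Real.logb 2 (Fintype.card V) := Real.logb_nonneg (by norm_num) (by linarith)
  have hTL : 0 ≤ (T.card : ℝ) * L := by positivity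
  refine finish3 hloc (A := (((D' ∪ R ∪ T).card : ℕ) : ℝ) *
    (8 * L + 8 * Real.logb 2 (8 * L ^ 2) ^ 2) / (16 * L) +
      2 * (R.card * Real.logb 2 ((k : ℝ) + 1)) +
      (0.023 * Fintype.card V + 6 * ((D' ∪ R ∪ T).card : ℕ)) +
      (Real.logb 2 (Fintype.card V) + T.card * L)) ?_ (by positivity) hnum
  rcases Nat.eq_zero_or_pos (pe G G (D' ∪ R ∪ T)).card with h0 | h0
  · rw [h0, Nat.cast_zero, Real.logb_zero]
    positivity
  have hP0 : (0 : ℝ) < ((pe G G (D' ∪ R ∪ T)).card : ℝ) := by exact_mod_cast h0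
  have hΔ1 : (1 : ℝ) ≤ Δ := by linarith
  have hle : ((pe G G (D' ∪ R ∪ T)).card : ℝ) ≤ gc (fixAut G (D' ∪ R ∪ T) T) *
      (((Fintype.card V).choose (D' ∪ R ∪ T).card : ℕ) *
        (Fintype.card V * (Δ : ℝ) ^ T.card)) := by
    have h1 : ((pe G G (D' ∪ R ∪ T)).card : ℝ) ≤ gc (fixAut G (D' ∪ R ∪ T) T) *
      (((Fintype.card V).choose (D' ∪ R ∪ T).card : ℕ) * (pe G G T).card) := by
      exact_mod_cast hcount
    have h2 : ((pe G G T).card : ℝ) ≤ Fintype.card V * (Δ : ℝ) ^ (T.card - 1) := by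
      exact_mod_cast hgrow
    have h4 : (Δ : ℝ) ^ (T.card - 1) ≤ (Δ : ℝ) ^ T.card :=
      pow_le_pow_right₀ hΔ1 (Nat.sub_le _ _)
    refine h1.trans ?_
    apply mul_le_mul_of_nonneg_left _ hg0.le
    apply mul_le_mul_of_nonneg_left _ hch0.le
    exact h2.trans (mul_le_mul_of_nonneg_left h4 hn0.le)
  have hlog := Real.logb_le_logb_of_le (b := 2) (by norm_num) hP0 hle
  rw [Real.logb_mul hg0.ne' (by positivity), Real.logb_mul hch0.ne' (by positivity),
    Real.logb_mul hn0.ne' (by positivity), Real.logb_pow, ← hL] at hlog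
  have hch := logb_choose_le _ _ hDn
  linarith

/-- from the order of the locating set to the number of its copies -/
theorem few_of_card (G : SimpleGraph V) {D : Finset V}
    (h : (D.card : ℝ) * (2 * Real.logb 2 (Fintype.card V) + 1) + 2 < (Fintype.card V : ℝ)) :
    4 * (pe G G D).card ^ 2 < 2 ^ (Fintype.card V - D.card) := by
  have hDn : D.card ≤ Fintype.card V := card_le_univ D
  have hn : 0 < Fintype.card V := by
    by_contra h0
    have h0' : Fintype.card V = 0 := by omega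
    have hD0 : D.card = 0 := by omega
    rw [h0', hD0] at h
    norm_num at h
  have hn' : (0 : ℝ) < (Fintype.card V : ℝ) := by exact_mod_cast hn
  have e1 : ((Fintype.card V : ℝ)) ^ (2 * D.card) =
      (2 : ℝ) ^ (((2 * D.card : ℕ) : ℝ) * Real.logb 2 (Fintype.card V)) := by
    rw [mul_comm ((2 * D.card : ℕ) : ℝ), Real.rpow_mul (by norm_num),
      Real.rpow_logb (by norm_num) (by norm_num) hn', Real.rpow_natCast]
  have h2 : (4 : ℝ) * (Fintype.card V : ℝ) ^ (2 * D.card) <
      (2 : ℝ) ^ (Fintype.card V - D.card) := by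
    rw [e1, ← Real.rpow_natCast, Nat.cast_sub hDn]
    have e2 : (4 : ℝ) = (2 : ℝ) ^ (2 : ℝ) := by norm_num
    rw [e2, ← Real.rpow_add (by norm_num)]
    apply Real.rpow_lt_rpow_of_exponent_lt (by norm_num)
    push_cast
    linarith
  have h3 : 4 * Fintype.card V ^ (2 * D.card) < 2 ^ (Fintype.card V - D.card) := by
    exact_mod_cast h2
  have h1 := Nat.pow_le_pow_left ((pe_le_emb G D).trans (emb_le_pow G D)) 2
  rw [← pow_mul, mul_comm D.card 2] at h1
  omega

/-- **The locating set of Theorem D.** -/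
theorem exLocD (G : SimpleGraph V) (h2 : 2 ≤ Fintype.card V)
    (h : ∀ x y : V, x ≠ y → 8 * Real.log (Fintype.card V) ^ 2 ≤ (dst G x y : ℝ)) :
    ∃ D : Finset V, Loc G D ∧ 4 * (pe G G D).card ^ 2 < 2 ^ (Fintype.card V - D.card) := by
  have hl2 := Real.log_two_gt_d9
  have hcard : 1 < Fintype.card V := by omega
  obtain ⟨x, y, hxy⟩ := Fintype.one_lt_card_iff.mp hcard
  have hd := h x y hxy
  have hd2 : (dst G x y : ℝ) ≤ Fintype.card V - 2 := by
    have := dst_le G hxy
    have h1 : ((dst G x y + 2 : ℕ) : ℝ) ≤ Fintype.card V := by exact_mod_cast this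
    push_cast at h1
    linarith
  have hlog : Real.log 2 ≤ Real.log (Fintype.card V) :=
    Real.log_le_log (by norm_num) (by exact_mod_cast h2)
  have h3 : 3 ≤ Fintype.card V := by
    by_contra hcon
    have h4 : Fintype.card V = 2 := by omega
    rw [h4] at hd hd2 hlog
    push_cast at hd hd2
    nlinarith
  have hlpos : 0 < Real.log (Fintype.card V) := by linarith
  have hnum := num h3 (by linarith)
  obtain ⟨D, hD, hc⟩ := exists_loc G ∅ (8 * Real.log (Fintype.card V) ^ 2) (by positivity)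
    (fun x y _ _ => h x y)
  refine ⟨D, hD, few_of_card G ?_⟩
  have e1 : 2 * (Fintype.card V : ℝ) * Real.log (Fintype.card V) /
      (8 * Real.log (Fintype.card V) ^ 2) = Fintype.card V / (4 * Real.log (Fintype.card V)) := by
    have : Real.log (Fintype.card V) ≠ 0 := by linarith
    field_simp
    ring
  rw [e1, card_empty, Nat.cast_zero, zero_add] at hc
  have h5 : 0 ≤ 2 * Real.logb 2 (Fintype.card V) + 1 := by
    have : 0 ≤ Real.logb 2 (Fintype.card V) :=
      Real.logb_nonneg (by norm_num) (by exact_mod_cast (by omega : 1 ≤ Fintype.card V))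
    linarith
  have h6 := mul_le_mul_of_nonneg_right hc h5
  linarith

/-- **The locating set of Theorem N, without exceptional vertices.** -/
theorem exLocL (G : SimpleGraph V) (h2 : 2 ≤ Fintype.card V)
    (h : ∀ x y : V, x ≠ y → 2048 * Real.logb 2 (Fintype.card V) ≤ (dst G x y : ℝ))
    (hcut : CutConn G) :
    ∃ D : Finset V, Loc G D ∧ 4 * (pe G G D).card ^ 2 < 2 ^ (Fintype.card V - D.card) := by
  have h3 : 3 ≤ Fintype.card V := by
    by_contra hcon
    have h4 : Fintype.card V = 2 := by omega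
    have hcard : 1 < Fintype.card V := by omega
    obtain ⟨x, y, hxy⟩ := Fintype.one_lt_card_iff.mp hcard
    have hd := h x y hxy
    have hd2 : dst G x y = 0 := by
      have := dst_le G hxy
      omega
    rw [h4, hd2] at hd
    norm_num at hd
  apply exLocN G h3 (Fintype.card V) h2 (fun v => card_le_univ _) ∅ ∅ (fun _ => ∅) 0
  · simp
  · simp
  · exact fun _ _ => rfl
  · exact fun _ => by simp
  · exact fun x hx => absurd hx (notMem_empty x)
  · intro x y _ _ hxy _ _
    exact h x y hxy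
  · exact hcut

/-! ### Coloured versions -/

theorem exists_locT (G : SimpleGraph V) (T : V → V → Prop) (B : Finset V) (q : ℝ) (hq0 : 0 < q)
    (h : ∀ x y : V, x ∉ B → y ∉ B → x ≠ y → T x y → q ≤ (dst G x y : ℝ)) :
    ∃ D : Finset V, (∀ x y : V, x ∉ D → y ∉ D → T x y → (∀ d ∈ D, G.Adj x d ↔ G.Adj y d) → x = y) ∧
      (D.card : ℝ) ≤ B.card + 2 * Fintype.card V * Real.log (Fintype.card V) / q + 1 := by
  by_cases hpair : ∃ x y : V, x ∉ B ∧ y ∉ B ∧ x ≠ y ∧ T x y
  swap
  · refine ⟨B, fun x y hx hy hT _ => ?_, ?_⟩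
    · by_contra hne
      exact hpair ⟨x, y, hx, hy, hne, hT⟩
    · have h1 : 0 ≤ 2 * (Fintype.card V : ℝ) * Real.log (Fintype.card V) / q := by
        apply div_nonneg _ hq0.le
        apply mul_nonneg (by positivity)
        exact Real.log_natCast_nonneg _
      linarith
  obtain ⟨x0, y0, hx0, hy0, hne0, hT0⟩ := hpair
  have hn2 : 2 ≤ Fintype.card V := by
    rw [← card_univ]
    exact one_lt_card.mpr ⟨x0, mem_univ _, y0, mem_univ _, hne0⟩
  have hn : (0 : ℝ) < Fintype.card V := by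
    have : 0 < Fintype.card V := by omega
    exact_mod_cast this
  have hqn : q ≤ Fintype.card V := by
    refine (h x0 y0 hx0 hy0 hne0 hT0).trans ?_
    have := dst_le G hne0
    have h1 : dst G x0 y0 ≤ Fintype.card V := by omega
    exact_mod_cast h1
  set n : ℝ := (Fintype.card V : ℝ) with hndef
  set t : ℝ := 2 * n * Real.log n / q with ht
  have ht0 : 0 ≤ t := by
    apply div_nonneg _ hq0.le
    apply mul_nonneg (by positivity)
    exact Real.log_natCast_nonneg _
  set m : ℕ := ⌈t⌉₊ with hm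
  let P : Finset (V × V) := univ.filter (fun p => p.1 ∉ B ∧ p.2 ∉ B ∧ p.1 ≠ p.2 ∧ T p.1 p.2)
  obtain ⟨D, hDm, hR⟩ := greedy P
    (fun z p => z ≠ p.1 ∧ z ≠ p.2 ∧ ¬ (G.Adj p.1 z ↔ G.Adj p.2 z)) q hqn (by
      intro p hp
      have hp' := (mem_filter.mp hp).2
      exact h p.1 p.2 hp'.1 hp'.2.1 hp'.2.2.1 hp'.2.2.2) m
  have hP : (P.card : ℝ) < n ^ 2 := by
    have h1 : P ⊂ univ := by
      rw [ssubset_univ_iff]
      intro e
      have : (x0, x0) ∈ P := by rw [e]; exact mem_univ _
      exact (mem_filter.mp this).2.2.2.1 rfl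
    have h2 := card_lt_card h1
    rw [card_univ, Fintype.card_prod] at h2
    have h3 : ((P.card : ℕ) : ℝ) < ((Fintype.card V * Fintype.card V : ℕ) : ℝ) := by
      exact_mod_cast h2
    rw [Nat.cast_mul] at h3
    rw [pow_two]
    exact h3
  have hpow : (1 - q / n) ^ m ≤ (n ^ 2)⁻¹ := by
    have h1 : 1 - q / n ≤ Real.exp (-(q / n)) := by
      have := Real.add_one_le_exp (-(q / n))
      linarith
    have h0 : 0 ≤ 1 - q / n := by
      rw [sub_nonneg, div_le_one hn]
      exact hqn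
    have h2 : (1 - q / n) ^ m ≤ Real.exp (-(q / n)) ^ m := pow_le_pow_left₀ h0 h1 m
    rw [← Real.exp_nat_mul] at h2
    have h3 : Real.exp ((m : ℝ) * -(q / n)) ≤ Real.exp (-(2 * Real.log n)) := by
      apply Real.exp_le_exp.mpr
      have h4 : t ≤ (m : ℝ) := Nat.le_ceil t
      have h5 : t * (q / n) = 2 * Real.log n := by
        rw [ht]
        field_simp
      have h6 : t * (q / n) ≤ m * (q / n) := mul_le_mul_of_nonneg_right h4 (by positivity)
      linarith
    have h4 : Real.exp (-(2 * Real.log n)) = (n ^ 2)⁻¹ := by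
      rw [Real.exp_neg]
      congr 1
      rw [two_mul, Real.exp_add, Real.exp_log hn, pow_two]
    rw [← h4]
    exact h2.trans h3
  have hR0 : P.filter (fun p => ∀ z ∈ D, ¬ (z ≠ p.1 ∧ z ≠ p.2 ∧ ¬ (G.Adj p.1 z ↔ G.Adj p.2 z)))
      = ∅ := by
    rw [← card_eq_zero]
    have h0 : 0 ≤ (1 - q / n) ^ m := by
      apply pow_nonneg
      rw [sub_nonneg, div_le_one hn]
      exact hqn
    have h1 : (P.card : ℝ) * (1 - q / n) ^ m < 1 := by
      rcases eq_or_lt_of_le h0 with h2 | h2
      · rw [← h2, mul_zero]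
        norm_num
      · calc (P.card : ℝ) * (1 - q / n) ^ m < n ^ 2 * (1 - q / n) ^ m :=
              mul_lt_mul_of_pos_right hP h2
          _ ≤ n ^ 2 * (n ^ 2)⁻¹ := mul_le_mul_of_nonneg_left hpow (by positivity)
          _ = 1 := mul_inv_cancel₀ (by positivity)
    have h2 := lt_of_le_of_lt hR h1
    have h3 : (P.filter (fun p => ∀ z ∈ D, ¬ (z ≠ p.1 ∧ z ≠ p.2 ∧
        ¬ (G.Adj p.1 z ↔ G.Adj p.2 z)))).card < 1 := by exact_mod_cast h2
    omega
  refine ⟨B ∪ D, ?_, ?_⟩
  · intro x y hx hy hT hxy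
    by_contra hne
    rw [mem_union, not_or] at hx hy
    have h1 : (x, y) ∈ P.filter (fun p => ∀ z ∈ D, ¬ (z ≠ p.1 ∧ z ≠ p.2 ∧
        ¬ (G.Adj p.1 z ↔ G.Adj p.2 z))) := by
      rw [mem_filter]
      refine ⟨mem_filter.mpr ⟨mem_univ _, hx.1, hy.1, hne, hT⟩, fun z hz h2 => ?_⟩
      exact h2.2.2 (hxy z (mem_union_right _ hz))
    rw [hR0] at h1
    exact absurd h1 (notMem_empty _)
  · have h1 : ((B ∪ D).card : ℝ) ≤ B.card + D.card := by exact_mod_cast card_union_le B D
    have h2 : (D.card : ℝ) ≤ m := by exact_mod_cast hDm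
    have h3 : (m : ℝ) < t + 1 := Nat.ceil_lt_add_one ht0
    linarith


/-- **A coloured locating set.** -/
theorem exLocT (G : SimpleGraph V) (T : V → V → Prop) (h3 : 3 ≤ Fintype.card V)
    (h : ∀ x y : V, x ≠ y → T x y → 8 * Real.log (Fintype.card V) ^ 2 ≤ (dst G x y : ℝ)) :
    ∃ D : Finset V, (∀ x y : V, x ∉ D → y ∉ D → T x y → (∀ d ∈ D, G.Adj x d ↔ G.Adj y d) → x = y) ∧
      4 * (pe G G D).card ^ 2 < 2 ^ (Fintype.card V - D.card) := by
  by_cases hpair : ∃ x y : V, x ≠ y ∧ T x y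
  swap
  · refine ⟨∅, fun x y _ _ hT _ => ?_, ?_⟩
    · by_contra hne
      exact hpair ⟨x, y, hne, hT⟩
    · have h1 : (pe G G ∅).card ≤ 1 := by
        rw [card_le_one]
        intro a ha b hb
        rw [mem_pe] at ha hb
        rw [image_eq_empty.mp ha.2, image_eq_empty.mp hb.2]
      have h2 := Nat.pow_le_pow_left h1 2
      rw [card_empty, Nat.sub_zero]
      have h4 : 2 ^ 3 ≤ 2 ^ Fintype.card V := Nat.pow_le_pow_right (by norm_num) h3
      omega
  obtain ⟨x, y, hxy, hT⟩ := hpair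
  have hd := h x y hxy hT
  have hd2 : (dst G x y : ℝ) ≤ Fintype.card V - 2 := by
    have := dst_le G hxy
    have h1 : ((dst G x y + 2 : ℕ) : ℝ) ≤ Fintype.card V := by exact_mod_cast this
    push_cast at h1
    linarith
  have hlog : Real.log 2 ≤ Real.log (Fintype.card V) :=
    Real.log_le_log (by norm_num) (by exact_mod_cast (by omega : 2 ≤ Fintype.card V))
  have hl2 := Real.log_two_gt_d9
  have hlpos : 0 < Real.log (Fintype.card V) := by linarith
  have hnum := num h3 (by linarith)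
  obtain ⟨D, hD, hc⟩ := exists_locT G T ∅ (8 * Real.log (Fintype.card V) ^ 2) (by positivity)
    (fun x y _ _ => h x y)
  refine ⟨D, hD, few_of_card G ?_⟩
  have e1 : 2 * (Fintype.card V : ℝ) * Real.log (Fintype.card V) /
      (8 * Real.log (Fintype.card V) ^ 2) = Fintype.card V / (4 * Real.log (Fintype.card V)) := by
    have : Real.log (Fintype.card V) ≠ 0 := by linarith
    field_simp
    ring
  rw [e1, card_empty, Nat.cast_zero, zero_add] at hc
  have h5 : 0 ≤ 2 * Real.logb 2 (Fintype.card V) + 1 := by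
    have : 0 ≤ Real.logb 2 (Fintype.card V) :=
      Real.logb_nonneg (by norm_num) (by exact_mod_cast (by omega : 1 ≤ Fintype.card V))
    linarith
  have h6 := mul_le_mul_of_nonneg_right hc h5
  linarith

end Pool.Agent.H71.LOC
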