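import Pool.Agent.H71.TQ.Prime
import Pool.Agent.H71.TQ.Dist
import Pool.Agent.H71.TQ.Num

set_option autoImplicit false
set_option linter.unusedSectionVars false

/-!
# The theorem on substitutions
-/

namespace Pool.Agent.H71.TQ

open Finset Classical
open Pool.Agent.H234RC (Hypo NonIso Reconstructible)
open Pool.Agent.H71.LOC (Comp Loc pe mem_pe PC dst dst_eq CutConn)

variable {V I : Type} [Fintype V] [Fintype I]

/-! ### Isomorphic parts -/

theorem same_iff (G : SimpleGraph V) (c : V → I) (i j : I) :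
    SameT G c i j ↔ Nonempty (G.induce {x | c x = i} ≃g G.induce {x | c x = j}) := by
  constructor
  · rintro ⟨τ, h1, h2⟩
    refine ⟨⟨τ.subtypeEquiv (fun x => h1 x), ?_⟩⟩
    rintro ⟨a, ha⟩ ⟨b, hb⟩
    exact h2 a b ha hb
  · rintro ⟨e⟩
    let e' : {x // c x = i} ≃ {x // c x = j} := e.toEquiv
    refine ⟨e'.extendSubtype, fun x => ?_, fun x y hx hy => ?_⟩
    · by_cases hx : c x = i
      · exact iff_of_true hx (e'.extendSubtype_mem x hx)
      · exact iff_of_false hx (e'.extendSubtype_not_mem x hx)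
    · rw [e'.extendSubtype_apply_of_mem x hx, e'.extendSubtype_apply_of_mem y hy]
      exact e.map_rel_iff (a := ⟨x, hx⟩) (b := ⟨y, hy⟩)

theorem peT_le_emb (A : SimpleGraph I) (T : I → I → Prop) (D : Finset I) :
    ((pe A A D).filter (fun J => ∀ p ∈ J, T p.1 p.2)).card ≤
      Nat.card {φ : A.induce (D : Set I) ↪g A // ∀ i : (D : Set I), T i (φ i)} := by
  have hfin : Finite {φ : A.induce (D : Set I) ↪g A // ∀ i : (D : Set I), T i (φ i)} :=
    inferInstance
  have : Fintype {φ : A.induce (D : Set I) ↪g A // ∀ i : (D : Set I), T i (φ i)} :=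
    Fintype.ofFinite _
  rw [Nat.card_eq_fintype_card, ← card_univ]
  let g : {φ : A.induce (D : Set I) ↪g A // ∀ i : (D : Set I), T i (φ i)} → Finset (I × I) :=
    fun φ => univ.image (fun x : (D : Set I) => ((x : I), φ.1 x))
  have hsub : (pe A A D).filter (fun J => ∀ p ∈ J, T p.1 p.2) ⊆ univ.image g := by
    intro J hJ
    rw [mem_filter, mem_pe] at hJ
    obtain ⟨hJ, hJT⟩ := hJ
    have h1 : ∀ x : (D : Set I), ∃ w, ((x : I), w) ∈ J := by
      intro x
      have : (x : I) ∈ J.image Prod.fst := by rw [hJ.2]; exact x.2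
      rw [mem_image] at this
      obtain ⟨p, hp, hpx⟩ := this
      exact ⟨p.2, by rw [← hpx]; exact hp⟩
    choose f hf using h1
    have hne : ∀ x y : (D : Set I), x ≠ y → ((x : I), f x) ≠ ((y : I), f y) := by
      intro x y hxy e
      exact hxy (Subtype.ext (congrArg Prod.fst e))
    have hinj : Function.Injective f := by
      intro x y e
      by_contra hxy
      exact (hJ.1 _ (hf x) _ (hf y) (hne x y hxy)).2.1 e
    rw [mem_image]
    refine ⟨⟨⟨⟨f, hinj⟩, ?_⟩, fun i => hJT _ (hf i)⟩, mem_univ _, ?_⟩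
    · intro x y
      show A.Adj (f x) (f y) ↔ A.Adj (x : I) (y : I)
      by_cases hxy : x = y
      · subst hxy
        exact iff_of_false (A.loopless.irrefl _) (A.loopless.irrefl _)
      · exact (hJ.1 _ (hf x) _ (hf y) (hne x y hxy)).2.2
    · ext p
      rw [mem_image]
      constructor
      · rintro ⟨x, _, rfl⟩
        exact hf x
      · intro hp
        have hpD : p.1 ∈ D := by
          rw [← hJ.2]
          exact mem_image_of_mem _ hp
        refine ⟨⟨p.1, hpD⟩, mem_univ _, ?_⟩
        show (p.1, f ⟨p.1, hpD⟩) = p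
        exact Pool.Agent.H71.LOC.fst_inj hJ.1 (hf ⟨p.1, hpD⟩) hp rfl
  exact (card_le_card hsub).trans card_image_le

theorem autT_le_pe (A : SimpleGraph I) (T : I → I → Prop) :
    Nat.card {φ : A ≃g A // ∀ i, T i (φ i)} ≤
      ((pe A A univ).filter (fun J => ∀ p ∈ J, T p.1 p.2)).card := by
  have hfin : Finite (A ≃g A) := Pool.Agent.H71.LOC.finite_aut A
  have hfin' : Finite {φ : A ≃g A // ∀ i, T i (φ i)} := inferInstance
  have : Fintype {φ : A ≃g A // ∀ i, T i (φ i)} := Fintype.ofFinite _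
  rw [Nat.card_eq_fintype_card, ← card_univ]
  apply card_le_card_of_injOn (fun φ : {φ : A ≃g A // ∀ i, T i (φ i)} =>
    univ.image (fun x : I => (x, φ.1 x)))
  · intro φ _
    rw [mem_coe, mem_filter, mem_pe]
    refine ⟨⟨?_, ?_⟩, ?_⟩
    · intro p hp q hq hne
      rw [mem_image] at hp hq
      obtain ⟨x, _, rfl⟩ := hp
      obtain ⟨y, _, rfl⟩ := hq
      have hxy : x ≠ y := fun e => hne (by rw [e])
      exact ⟨hxy, fun e => hxy (φ.1.injective e), φ.1.map_rel_iff⟩
    · rw [image_image]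
      ext x
      rw [mem_image]
      exact ⟨fun _ => mem_univ _, fun _ => ⟨x, mem_univ _, rfl⟩⟩
    · intro p hp
      rw [mem_image] at hp
      obtain ⟨x, _, rfl⟩ := hp
      exact φ.2 x
  · intro φ _ ψ _ h
    apply Subtype.ext
    apply RelIso.ext
    intro x
    have h1 : (x, φ.1 x) ∈ univ.image (fun x : I => (x, ψ.1 x)) := by
      have h2 : (x, φ.1 x) ∈ univ.image (fun x : I => (x, φ.1 x)) := mem_image_of_mem _ (mem_univ x)
      have h3 : univ.image (fun x : I => (x, φ.1 x)) = univ.image (fun x : I => (x, ψ.1 x)) := h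
      rw [h3] at h2
      exact h2
    rw [mem_image] at h1
    obtain ⟨y, _, hy⟩ := h1
    have e1 : y = x := congrArg Prod.fst hy
    have e2 : ψ.1 y = φ.1 x := congrArg Prod.snd hy
    rw [e1] at e2
    exact e2.symm

/-! ### Recognition -/

variable {G : SimpleGraph V}

/-- the ways in which the partition can be recognised -/
def Rcg (G : SimpleGraph V) (A : SimpleGraph I) (c : V → I) : Prop :=
  Function.Injective c ∨
  (16 ≤ Fintype.card V ∧ ∃ s : ℕ, (∀ x y, x ≠ y → c x = c y → (ds G x y).card < s) ∧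
    (∀ x y, c x ≠ c y → s < (ds G x y).card)) ∨
  (∃ s : ℕ, (∀ i, (univ.filter (fun v => c v = i)).card ≤ s) ∧ BigMod G c s) ∨
  (5 ≤ Fintype.card I ∧
    ∀ D : Finset I, (univ.filter (fun v => c v ∈ D)).card ≤ 2 → PW A D)

theorem rcg_rel {A : SimpleGraph I} {c : V → I} (hc : Function.Surjective c)
    (hadj : ∀ x y, c x ≠ c y → (G.Adj x y ↔ A.Adj (c x) (c y))) (hR : Rcg G A c)
    (H : SimpleGraph V) (π : V → Equiv.Perm V) (hH : Hypo G H π) :
    ∃ rH : V → V → Prop, RelDeck π (fun x y => c x = c y) rH := by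
  rcases hR with h | ⟨h1, s, h2, h3⟩ | ⟨s, h1, h2⟩ | ⟨h1, h2⟩
  · refine ⟨fun x y => x = y, fun u x y _ _ => ?_⟩
    show π u x = π u y ↔ c x = c y
    rw [(π u).injective.eq_iff, h.eq_iff]
  · exact ⟨_, gap_rel h1 h2 h3 hH⟩
  · exact ⟨_, size_rel hadj h1 h2 hH⟩
  · obtain ⟨h3, h4⟩ := prime_big hc hadj h1 h2
    exact ⟨_, size_rel hadj h3 h4 hH⟩

/-- **The general criterion.** -/
theorem main1 {A : SimpleGraph I} {c : V → I} (hc : Function.Surjective c)
    (hadj : ∀ x y, c x ≠ c y → (G.Adj x y ↔ A.Adj (c x) (c y))) (hn : 4 ≤ Fintype.card V)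
    (hR : Rcg G A c) {D : Finset I}
    (hD : ∀ i j, i ∉ D → j ∉ D →
      Nonempty (G.induce {x | c x = i} ≃g G.induce {x | c x = j}) →
      (∀ d ∈ D, A.Adj i d ↔ A.Adj j d) → i = j)
    (hnum : 4 * Nat.card {φ : A.induce (D : Set I) ↪g A // ∀ i : (D : Set I),
        Nonempty (G.induce {x | c x = i} ≃g G.induce {x | c x = φ i})} ^ 2 <
      Nat.card {φ : A ≃g A // ∀ i, Nonempty (G.induce {x | c x = i} ≃g
        G.induce {x | c x = φ i})} ^ 2 * 2 ^ (Fintype.card I - D.card)) :
    Reconstructible G ∧ Reconstructible Gᶜ := by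
  apply criterion hc hadj hn (D := D) (fun i j hi hj h => hD i j hi hj ((same_iff G c i j).mp h))
    ?_ (rcg_rel hc hadj hR)
  have e1 : (pe A A D).filter (fun J => ∀ p ∈ J, SameT G c p.1 p.2) =
      (pe A A D).filter (fun J => ∀ p ∈ J, Nonempty (G.induce {x | c x = p.1} ≃g
        G.induce {x | c x = p.2})) :=
    filter_congr (fun J _ => forall₂_congr (fun p _ => same_iff G c p.1 p.2))
  have e2 : (pe A A univ).filter (fun J => ∀ p ∈ J, SameT G c p.1 p.2) =
      (pe A A univ).filter (fun J => ∀ p ∈ J, Nonempty (G.induce {x | c x = p.1} ≃g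
        G.induce {x | c x = p.2})) :=
    filter_congr (fun J _ => forall₂_congr (fun p _ => same_iff G c p.1 p.2))
  rw [e1, e2]
  have h1 := Nat.pow_le_pow_left (peT_le_emb A (fun i j => Nonempty (G.induce {x | c x = i} ≃g
    G.induce {x | c x = j})) D) 2
  have h2 := Nat.mul_le_mul_right (2 ^ (Fintype.card I - D.card))
    (Nat.pow_le_pow_left (autT_le_pe A (fun i j => Nonempty (G.induce {x | c x = i} ≃g
      G.induce {x | c x = j}))) 2)
  exact lt_of_le_of_lt (Nat.mul_le_mul_left 4 h1) (lt_of_lt_of_le hnum h2)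

/-- the form without automorphisms, for the uncoloured number of embeddings -/
theorem main2 {A : SimpleGraph I} {c : V → I} (hc : Function.Surjective c)
    (hadj : ∀ x y, c x ≠ c y → (G.Adj x y ↔ A.Adj (c x) (c y))) (hn : 4 ≤ Fintype.card V)
    (hR : Rcg G A c) {D : Finset I}
    (hD : ∀ i j, i ∉ D → j ∉ D → SameT G c i j →
      (∀ d ∈ D, A.Adj i d ↔ A.Adj j d) → i = j)
    (hnum : 4 * (pe A A D).card ^ 2 < 2 ^ (Fintype.card I - D.card)) :
    Reconstructible G ∧ Reconstructible Gᶜ := by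
  apply criterion hc hadj hn (D := D) hD ?_ (rcg_rel hc hadj hR)
  have h1 := Nat.pow_le_pow_left (card_filter_le (pe A A D)
    (fun J => ∀ p ∈ J, SameT G c p.1 p.2)) 2
  have h2 : 1 ≤ ((pe A A univ).filter (fun J => ∀ p ∈ J, SameT G c p.1 p.2)).card := by
    apply card_pos.mpr
    refine ⟨univ.image (fun i => (i, i)), ?_⟩
    rw [mem_filter, mem_pe]
    refine ⟨⟨?_, ?_⟩, ?_⟩
    · intro p hp q hq hne
      rw [mem_image] at hp hq
      obtain ⟨i, _, rfl⟩ := hp
      obtain ⟨j, _, rfl⟩ := hq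
      have hij : i ≠ j := fun e => hne (by rw [e])
      exact ⟨hij, hij, Iff.rfl⟩
    · rw [image_image]
      ext i
      rw [mem_image]
      exact ⟨fun _ => mem_univ _, fun _ => ⟨i, mem_univ _, rfl⟩⟩
    · intro p hp
      rw [mem_image] at hp
      obtain ⟨i, _, rfl⟩ := hp
      exact ⟨Equiv.refl V, fun x => Iff.rfl, fun x y _ _ => Iff.rfl⟩
  have h3 := Nat.mul_le_mul_right (2 ^ (Fintype.card I - D.card)) (Nat.pow_le_pow_left h2 2)
  rw [one_pow, one_mul] at h3
  omega

/-- **Isomorphic parts distinguished by many vertices of the quotient.** -/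
theorem main3 {A : SimpleGraph I} {c : V → I} (hc : Function.Surjective c)
    (hadj : ∀ x y, c x ≠ c y → (G.Adj x y ↔ A.Adj (c x) (c y))) (hn : 4 ≤ Fintype.card V)
    (hR : Rcg G A c) (h3 : 3 ≤ Fintype.card I)
    (h : ∀ i j : I, i ≠ j → Nonempty (G.induce {x | c x = i} ≃g G.induce {x | c x = j}) →
      8 * Real.log (Fintype.card I) ^ 2 ≤ (dst A i j : ℝ)) :
    Reconstructible G ∧ Reconstructible Gᶜ := by
  obtain ⟨D, hD, hnum⟩ := Pool.Agent.H71.LOC.exLocT A (SameT G c) h3
    (fun i j hij hT => h i j hij ((same_iff G c i j).mp hT))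
  exact main2 hc hadj hn hR hD hnum

/-- **The form with the logarithm.** -/
theorem main4 {A : SimpleGraph I} {c : V → I} (hc : Function.Surjective c)
    (hadj : ∀ x y, c x ≠ c y → (G.Adj x y ↔ A.Adj (c x) (c y))) (hn : 4 ≤ Fintype.card V)
    (hR : Rcg G A c) (h2 : 2 ≤ Fintype.card I)
    (h : ∀ i j : I, i ≠ j → 2048 * Real.logb 2 (Fintype.card I) ≤ (dst A i j : ℝ)) :
    Reconstructible G ∧ Reconstructible Gᶜ := by
  by_cases hcut : CutConn A
  · obtain ⟨D, hD, hnum⟩ := Pool.Agent.H71.LOC.exLocL A h2 h hcut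
    exact main2 hc hadj hn hR (fun i j hi hj _ h => hD i j hi hj h) hnum
  · apply Pool.Agent.H71.LOC.rec_disc G (by omega)
    intro hG
    apply hcut
    intro S hS hS'
    obtain ⟨i, hi⟩ := hS
    obtain ⟨j, hj⟩ := hS'
    obtain ⟨x, rfl⟩ := hc i
    obtain ⟨y, rfl⟩ := hc j
    obtain ⟨a, ha, b, hb, hab⟩ := hG (univ.filter (fun v => c v ∈ S))
      ⟨x, mem_filter.mpr ⟨mem_univ _, hi⟩⟩ ⟨y, fun h => hj (mem_filter.mp h).2⟩
    have ha' := (mem_filter.mp ha).2
    have hb' : c b ∉ S := fun h => hb (mem_filter.mpr ⟨mem_univ _, h⟩)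
    exact ⟨c a, ha', c b, hb', (hadj a b (fun e => hb' (e ▸ ha'))).mp hab⟩

/-! ### Sizes of parts -/

theorem ds_cross {A : SimpleGraph I} {c : V → I}
    (hadj : ∀ x y, c x ≠ c y → (G.Adj x y ↔ A.Adj (c x) (c y))) (x y : V) :
    ∑ k ∈ ds A (c x) (c y), (univ.filter (fun v => c v = k)).card ≤ (ds G x y).card := by
  rw [← card_biUnion]
  · apply card_le_card
    intro z hz
    rw [mem_biUnion] at hz
    obtain ⟨k, hk, hzk⟩ := hz
    have hzk' := (mem_filter.mp hzk).2
    rw [← hzk', mem_ds] at hk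
    obtain ⟨h1, h2, h3⟩ := hk
    rw [mem_ds]
    refine ⟨fun e => h1 (by rw [e]), fun e => h2 (by rw [e]), ?_⟩
    rw [hadj x z (Ne.symm h1), hadj y z (Ne.symm h2)]
    exact h3
  · intro a _ b _ hab
    refine disjoint_left.mpr ?_
    intro z h1 h2
    exact hab ((mem_filter.mp h1).2.symm.trans (mem_filter.mp h2).2)

theorem ds_inner {A : SimpleGraph I} {c : V → I}
    (hadj : ∀ x y, c x ≠ c y → (G.Adj x y ↔ A.Adj (c x) (c y))) {x y : V} (hxy : x ≠ y)
    (h : c x = c y) :
    (ds G x y).card + 2 ≤ (univ.filter (fun v => c v = c x)).card := by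
  have h1 : ds G x y ⊆ ((univ.filter (fun v => c v = c x)).erase x).erase y := by
    intro z hz
    rw [mem_ds] at hz
    rw [mem_erase, mem_erase, mem_filter]
    refine ⟨hz.2.1, hz.1, mem_univ _, ?_⟩
    by_contra hne
    apply hz.2.2
    rw [hadj x z (fun e => hne e.symm), hadj y z (fun e => hne (by rw [h]; exact e.symm)), h]
  have h2 := card_le_card h1
  have hx : x ∈ univ.filter (fun v => c v = c x) := mem_filter.mpr ⟨mem_univ _, rfl⟩
  have hy : y ∈ (univ.filter (fun v => c v = c x)).erase x :=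
    mem_erase.mpr ⟨hxy.symm, mem_filter.mpr ⟨mem_univ _, h.symm⟩⟩
  have h3 := card_erase_add_one hx
  have h4 := card_erase_add_one hy
  omega

theorem big_of_dst {A : SimpleGraph I} (h2 : 2 ≤ Fintype.card I) {m : ℕ}
    (hm : min (8 * Real.log (Fintype.card I) ^ 2) (2048 * Real.logb 2 (Fintype.card I)) ≤ m)
    (h : ∀ i j : I, i ≠ j → m ≤ dst A i j) : 2 ≤ m ∧ 16 ≤ Fintype.card I := by
  obtain ⟨i, j, hij⟩ := Fintype.one_lt_card_iff.mp (by omega : 1 < Fintype.card I)
  have hd := h i j hij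
  have hd2 := Pool.Agent.H71.LOC.dst_le A hij
  have hl2 := Real.log_two_gt_d9
  have hlog : Real.log 2 ≤ Real.log (Fintype.card I) :=
    Real.log_le_log (by norm_num) (by exact_mod_cast h2)
  have hlogb : 1 ≤ Real.logb 2 (Fintype.card I) := by
    have := Real.logb_le_logb_of_le (b := 2) (by norm_num) (by norm_num)
      (by exact_mod_cast h2 : (2 : ℝ) ≤ Fintype.card I)
    rwa [Real.logb_self_eq_one (by norm_num)] at this
  have hm1 : (3 : ℝ) < m := by
    refine lt_of_lt_of_le ?_ hm
    rw [lt_min_iff]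
    constructor
    · nlinarith
    · linarith
  have hm2 : 3 < m := by exact_mod_cast hm1
  refine ⟨by omega, ?_⟩
  by_contra hlt
  have h6 : 4 ≤ Fintype.card I := by omega
  have hlog4 : Real.log 4 ≤ Real.log (Fintype.card I) :=
    Real.log_le_log (by norm_num) (by exact_mod_cast h6)
  have e4 : Real.log 4 = 2 * Real.log 2 := by
    have : (4 : ℝ) = 2 ^ (2 : ℕ) := by norm_num
    rw [this, Real.log_pow]
    norm_num
  have hm3 : (14 : ℝ) < m := by
    refine lt_of_lt_of_le ?_ hm
    rw [lt_min_iff]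
    constructor
    · nlinarith
    · linarith
  have hm4 : 14 < m := by exact_mod_cast hm3
  omega

/-- **Twins, or parts of comparable sizes.** -/
theorem main5 {A : SimpleGraph I} {c : V → I} (hc : Function.Surjective c)
    (hadj : ∀ x y, c x ≠ c y → (G.Adj x y ↔ A.Adj (c x) (c y))) (h2 : 2 ≤ Fintype.card I)
    {m : ℕ}
    (hm : min (8 * Real.log (Fintype.card I) ^ 2) (2048 * Real.logb 2 (Fintype.card I)) ≤ m)
    (h : ∀ i j : I, i ≠ j → m ≤ dst A i j)
    (hP : (∀ x y, x ≠ y → c x = c y → dst G x y = 0) ∨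
      (∀ i j : I, (univ.filter (fun v => c v = i)).card ≤
        m * (univ.filter (fun v => c v = j)).card)) :
    Reconstructible G ∧ Reconstructible Gᶜ := by
  obtain ⟨hm2, hK⟩ := big_of_dst h2 hm h
  have hKn : Fintype.card I ≤ Fintype.card V := Fintype.card_le_of_surjective c hc
  have hpos : ∀ i : I, 1 ≤ (univ.filter (fun v => c v = i)).card := by
    intro i
    obtain ⟨x, hx⟩ := hc i
    exact card_pos.mpr ⟨x, mem_filter.mpr ⟨mem_univ _, hx⟩⟩
  have hR : Rcg G A c := by
    right
    left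
    refine ⟨by omega, ?_⟩
    rcases hP with hP | hP
    · refine ⟨1, fun x y hxy hxy' => ?_, fun x y hxy => ?_⟩
      · have := hP x y hxy hxy'
        rw [dst_ds] at this
        omega
      · have h3 := h (c x) (c y) hxy
        rw [dst_ds] at h3
        have h4 := ds_cross hadj x y
        have h5 : ∑ k ∈ ds A (c x) (c y), 1 ≤
            ∑ k ∈ ds A (c x) (c y), (univ.filter (fun v => c v = k)).card :=
          sum_le_sum (fun k _ => hpos k)
        rw [sum_const, smul_eq_mul, mul_one] at h5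
        omega
    · -- the largest part
      obtain ⟨i0, _, hi0⟩ := exists_max_image (univ : Finset I)
        (fun i => (univ.filter (fun v => c v = i)).card)
        (by
          obtain ⟨x⟩ : Nonempty I := Fintype.card_pos_iff.mp (by omega)
          exact ⟨x, mem_univ _⟩)
      set t := (univ.filter (fun v => c v = i0)).card with ht
      have ht1 : 1 ≤ t := hpos i0
      refine ⟨t - 1, fun x y hxy hxy' => ?_, fun x y hxy => ?_⟩
      · have h3 := ds_inner hadj hxy hxy'
        have h4 : (univ.filter (fun v => c v = c x)).card ≤ t := hi0 (c x) (mem_univ _)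
        omega
      · have h3 := h (c x) (c y) hxy
        rw [dst_ds] at h3
        have h4 := ds_cross hadj x y
        have h5 : m * t ≤ m * ∑ k ∈ ds A (c x) (c y), (univ.filter (fun v => c v = k)).card := by
          calc m * t ≤ (ds A (c x) (c y)).card * t := Nat.mul_le_mul_right _ h3
            _ = ∑ k ∈ ds A (c x) (c y), t := by rw [sum_const, smul_eq_mul]
            _ ≤ ∑ k ∈ ds A (c x) (c y), m * (univ.filter (fun v => c v = k)).card :=
                sum_le_sum (fun k _ => hP i0 k)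
            _ = _ := by rw [mul_sum]
        have h6 : t ≤ ∑ k ∈ ds A (c x) (c y), (univ.filter (fun v => c v = k)).card :=
          Nat.le_of_mul_le_mul_left h5 (by omega)
        omega
  have hn : 4 ≤ Fintype.card V := by omega
  rcases le_total (8 * Real.log (Fintype.card I : ℝ) ^ 2) (2048 * Real.logb 2 (Fintype.card I))
    with h1 | h1
  · rw [min_eq_left h1] at hm
    exact main3 hc hadj hn hR (by omega)
      (fun i j hij _ => hm.trans (by exact_mod_cast h i j hij))
  · rw [min_eq_right h1] at hm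
    exact main4 hc hadj hn hR h2 (fun i j hij => hm.trans (by exact_mod_cast h i j hij))

end Pool.Agent.H71.TQ
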