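import Pool.Agent.H71.TQ.Kelly

set_option autoImplicit false
set_option linter.unusedSectionVars false

/-!
# Representatives of the classes, and the counting bound for coloured quotients
-/

namespace Pool.Agent.H71.TQ

open Finset Classical
open Pool.Agent.H71.LOC (Comp ip ip_bound Loc pe mem_pe PC)

variable {V I C : Type} [Fintype V] [Fintype I]

/-- `ρ` chooses representatives -/
structure Rep (r : V → V → Prop) (ρ : V → V) : Prop where
  rel : ∀ x, r x (ρ x)
  eq : ∀ x y, r x y → ρ x = ρ y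

theorem exists_rep {r : V → V → Prop} (h : Equivalence r) : ∃ ρ, Rep r ρ := by
  let s : Setoid V := ⟨r, h⟩
  refine ⟨fun x => (Quotient.mk s x).out, ⟨fun x => ?_, fun x y hxy => ?_⟩⟩
  · exact h.symm (Quotient.mk_out (s := s) x)
  · have : Quotient.mk s x = Quotient.mk s y := Quotient.sound hxy
    show (Quotient.mk s x).out = (Quotient.mk s y).out
    rw [this]

/-- the classes are modules -/
def Mods (X : SimpleGraph V) (r : V → V → Prop) : Prop :=
  ∀ x x' y, r x x' → ¬ r x y → (X.Adj x y ↔ X.Adj x' y)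

theorem Mods.both {X : SimpleGraph V} {r : V → V → Prop} (hM : Mods X r) (he : Equivalence r)
    {x x' y y' : V} (h1 : r x x') (h2 : r y y') (h3 : ¬ r x y) : X.Adj x y ↔ X.Adj x' y' := by
  have h4 : ¬ r x' y := fun h => h3 (he.trans h1 h)
  have h5 : ¬ r y x' := fun h => h4 (he.symm h)
  rw [hM x x' y h1 h3, X.adj_comm x' y, hM y y' x' h2 h5, X.adj_comm y' x']

/-- embeddings by pairs from `P` -/
noncomputable def NR (A : SimpleGraph I) (X : SimpleGraph V) (r : V → V → Prop)
    (P : Finset (I × V)) (S : Finset I) : Finset (Finset (I × V)) :=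
  (EJ A X r S).filter (fun J => J ⊆ P)

theorem mem_NR {A : SimpleGraph I} {X : SimpleGraph V} {r : V → V → Prop} {P : Finset (I × V)}
    {S : Finset I} {J : Finset (I × V)} :
    J ∈ NR A X r P S ↔ Comp (PR A X r) J ∧ J.image Prod.fst = S ∧ J ⊆ P := by
  unfold NR
  rw [mem_filter, mem_EJ, and_assoc]

/-- the pairs of a label and a representative, such that the class of the representative contains a
vertex of the prescribed colour -/
noncomputable def PP (r : V → V → Prop) (ρ : V → V) (cl : V → C) (k : I → C) :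
    Finset (I × V) :=
  univ.filter (fun p => ρ p.2 = p.2 ∧ ∃ w, r p.2 w ∧ cl w = k p.1)

theorem mem_PP {r : V → V → Prop} {ρ : V → V} {cl : V → C} {k : I → C} {p : I × V} :
    p ∈ PP r ρ cl k ↔ ρ p.2 = p.2 ∧ ∃ w, r p.2 w ∧ cl w = k p.1 := by
  unfold PP
  rw [mem_filter]
  exact and_iff_right (mem_univ _)

theorem card_fiber {A : SimpleGraph I} {X : SimpleGraph V} {r : V → V → Prop}
    (he : Equivalence r) (hM : Mods X r) {ρ : V → V} (hρ : Rep r ρ) (cl : V → C) (k : I → C)
    {S : Finset I} {J' : Finset (I × V)} (hJ' : J' ∈ NR A X r (PP r ρ cl k) S) :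
    ((NJ A X r cl S k).filter (fun J => J.image (fun p => (p.1, ρ p.2)) = J')).card =
      ∏ p ∈ J', (univ.filter (fun w => r p.2 w ∧ cl w = k p.1)).card := by
  rw [mem_NR] at hJ'
  obtain ⟨h1, h2, h3⟩ := hJ'
  rw [← card_pi]
  symm
  apply card_bij (fun g _ => J'.attach.image (fun p => (p.1.1, g p.1 p.2)))
  · intro g hg
    rw [mem_pi] at hg
    have hg' : ∀ p (hp : p ∈ J'), r p.2 (g p hp) ∧ cl (g p hp) = k p.1 := fun p hp =>
      (mem_filter.mp (hg p hp)).2
    unfold NJ
    rw [mem_filter, mem_filter, mem_EJ]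
    refine ⟨⟨⟨?_, ?_⟩, ?_⟩, ?_⟩
    · intro a ha b hb hab
      rw [mem_image] at ha hb
      obtain ⟨p, _, rfl⟩ := ha
      obtain ⟨q, _, rfl⟩ := hb
      have hpq : p.1 ≠ q.1 := by
        intro e
        apply hab
        have : p = q := Subtype.ext e
        rw [this]
      obtain ⟨h4, h5, h6⟩ := h1 p.1 p.2 q.1 q.2 hpq
      have hp := (hg' p.1 p.2).1
      have hq := (hg' q.1 q.2).1
      refine ⟨h4, fun h => h5 (he.trans hp (he.trans h (he.symm hq))), ?_⟩
      show X.Adj (g p.1 p.2) (g q.1 q.2) ↔ A.Adj p.1.1 q.1.1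
      rw [← hM.both he hp hq h5]
      exact h6
    · rw [image_image, ← h2]
      ext i
      rw [mem_image, mem_image]
      constructor
      · rintro ⟨p, _, rfl⟩
        exact ⟨p.1, p.2, rfl⟩
      · rintro ⟨p, hp, rfl⟩
        exact ⟨⟨p, hp⟩, mem_attach _ _, rfl⟩
    · intro a ha
      rw [mem_image] at ha
      obtain ⟨p, _, rfl⟩ := ha
      exact (hg' p.1 p.2).2
    · rw [image_image]
      ext a
      rw [mem_image]
      constructor
      · rintro ⟨p, _, rfl⟩
        have : ((fun p : I × V => (p.1, ρ p.2)) ∘ fun p : { x // x ∈ J' } =>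
            (p.1.1, g p.1 p.2)) p = p.1 := by
          apply Prod.ext
          · rfl
          · show ρ (g p.1 p.2) = p.1.2
            rw [← hρ.eq _ _ (hg' p.1 p.2).1]
            exact (mem_PP.mp (h3 p.2)).1
        rw [this]
        exact p.2
      · intro ha
        refine ⟨⟨a, ha⟩, mem_attach _ _, ?_⟩
        apply Prod.ext
        · rfl
        · show ρ (g a ha) = a.2
          rw [← hρ.eq _ _ (hg' a ha).1]
          exact (mem_PP.mp (h3 ha)).1
  · intro g hg g' hg' e
    funext p hp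
    have h4 : (p.1, g p hp) ∈ J'.attach.image (fun p => (p.1.1, g p.1 p.2)) :=
      mem_image.mpr ⟨⟨p, hp⟩, mem_attach _ _, rfl⟩
    have e' : J'.attach.image (fun p => (p.1.1, g p.1 p.2)) =
      J'.attach.image (fun p => (p.1.1, g' p.1 p.2)) := e
    rw [e', mem_image] at h4
    obtain ⟨q, _, hq⟩ := h4
    have hq1 : q.1.1 = p.1 := (Prod.ext_iff.mp hq).1
    have h5 : q.1 = p := fst_inj h1 q.2 hp hq1
    have h6 : g' q.1 q.2 = g p hp := (Prod.ext_iff.mp hq).2
    subst h5
    exact h6.symm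
  · intro J hJ
    unfold NJ at hJ
    rw [mem_filter, mem_filter, mem_EJ] at hJ
    obtain ⟨⟨⟨h4, h5⟩, h6⟩, h7⟩ := hJ
    have h8 : ∀ p (hp : p ∈ J'), ∃ w, (p.1, w) ∈ J ∧ ρ w = p.2 := by
      intro p hp
      rw [← h7, mem_image] at hp
      obtain ⟨q, hq, rfl⟩ := hp
      exact ⟨q.2, hq, rfl⟩
    choose g hg using h8
    refine ⟨g, ?_, ?_⟩
    · rw [mem_pi]
      intro p hp
      rw [mem_filter]
      refine ⟨mem_univ _, ?_, h6 _ (hg p hp).1⟩
      rw [← (hg p hp).2]
      exact he.symm (hρ.rel _)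
    · ext a
      rw [mem_image]
      constructor
      · rintro ⟨p, _, rfl⟩
        exact (hg p.1 p.2).1
      · intro ha
        have hb : (a.1, ρ a.2) ∈ J' := by
          rw [← h7]
          exact mem_image.mpr ⟨a, ha, rfl⟩
        refine ⟨⟨_, hb⟩, mem_attach _ _, ?_⟩
        show (a.1, g (a.1, ρ a.2) hb) = a
        exact fst_inj h4 (hg _ hb).1 ha rfl

theorem card_prod {A : SimpleGraph I} {X : SimpleGraph V} {r : V → V → Prop}
    (he : Equivalence r) (hM : Mods X r) {ρ : V → V} (hρ : Rep r ρ) (cl : V → C) (k : I → C)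
    (orb : C → ℕ) (horb : ∀ w, (univ.filter (fun y => r w y ∧ cl y = cl w)).card = orb (cl w))
    (S : Finset I) :
    (NJ A X r cl S k).card = (∏ a ∈ S, orb (k a)) * (NR A X r (PP r ρ cl k) S).card := by
  rw [card_eq_sum_card_fiberwise (f := fun J => J.image (fun p => (p.1, ρ p.2)))
    (t := NR A X r (PP r ρ cl k) S)]
  · rw [mul_comm, ← smul_eq_mul, ← sum_const]
    apply sum_congr rfl
    intro J' hJ'
    rw [card_fiber he hM hρ cl k hJ']
    rw [mem_NR] at hJ'
    obtain ⟨h1, h2, h3⟩ := hJ'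
    rw [← h2, prod_image (fun p hp q hq e => fst_inj h1 hp hq e)]
    apply prod_congr rfl
    intro p hp
    obtain ⟨_, w, hw, hc⟩ := mem_PP.mp (h3 hp)
    rw [← hc, ← horb w]
    congr 1
    ext y
    rw [mem_filter, mem_filter]
    constructor
    · rintro ⟨_, h4, h5⟩
      exact ⟨mem_univ _, he.trans (he.symm hw) h4, h5⟩
    · rintro ⟨_, h4, h5⟩
      exact ⟨mem_univ _, he.trans hw h4, h5⟩
  · intro J hJ
    unfold NJ at hJ
    rw [mem_coe, mem_filter, mem_EJ] at hJ
    obtain ⟨⟨h1, h2⟩, h3⟩ := hJ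
    rw [mem_coe, mem_NR]
    refine ⟨?_, ?_, ?_⟩
    · intro a ha b hb hab
      rw [mem_image] at ha hb
      obtain ⟨p, hp, rfl⟩ := ha
      obtain ⟨q, hq, rfl⟩ := hb
      have hpq : p ≠ q := fun e => hab (by rw [e])
      obtain ⟨h4, h5, h6⟩ := h1 p hp q hq hpq
      refine ⟨h4, fun h => h5 (he.trans (hρ.rel _) (he.trans h (he.symm (hρ.rel _)))), ?_⟩
      show X.Adj (ρ p.2) (ρ q.2) ↔ A.Adj p.1 q.1
      rw [← hM.both he (hρ.rel p.2) (hρ.rel q.2) h5]
      exact h6
    · rw [image_image]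
      exact h2
    · intro a ha
      rw [mem_image] at ha
      obtain ⟨p, hp, rfl⟩ := ha
      rw [mem_PP]
      exact ⟨(hρ.eq _ _ (hρ.rel p.2)).symm, p.2, he.symm (hρ.rel _), h3 p hp⟩

/-! ### The generating function -/

section gen

variable {A : SimpleGraph I} {X : SimpleGraph V} {r : V → V → Prop} {P : Finset (I × V)}

theorem pr_symm (he : Equivalence r) {p q : I × V} (h : PR A X r p q) : PR A X r q p :=
  ⟨h.1.symm, fun h' => h.2.1 (he.symm h'), by rw [X.adj_comm, A.adj_comm]; exact h.2.2⟩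

theorem snd_inj (he : Equivalence r) {J : Finset (I × V)}
    (h : Comp (PR A X r) J) : Set.InjOn Prod.snd (J : Set (I × V)) := by
  intro p hp q hq e
  by_contra hne
  apply (h p hp q hq hne).2.1
  have e' : p.2 = q.2 := e
  rw [e']
  exact he.refl _

/-- the pairs by which an embedding can be extended -/
noncomputable def extR (A : SimpleGraph I) (X : SimpleGraph V) (r : V → V → Prop)
    (P : Finset (I × V)) (D : Finset I) (F : Finset (I × V)) : Finset (I × V) :=
  P.filter (fun p => p.1 ∉ D ∧ ∀ q ∈ F, PR A X r p q)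

theorem mem_extR {D : Finset I} {F : Finset (I × V)} {p : I × V} :
    p ∈ extR A X r P D F ↔ p ∈ P ∧ p.1 ∉ D ∧ ∀ q ∈ F, PR A X r p q := by
  unfold extR
  rw [mem_filter]

/-- two labels outside `D` which can be mapped to the same vertex have different neighbours
in `D` -/
def LocP (A : SimpleGraph I) (P : Finset (I × V)) (D : Finset I) : Prop :=
  ∀ i j w, i ∉ D → j ∉ D → (i, w) ∈ P → (j, w) ∈ P →
    (∀ d ∈ D, A.Adj i d ↔ A.Adj j d) → i = j

theorem card_extR (he : Equivalence r) {R : Finset V} (hPR : ∀ p ∈ P, p.2 ∈ R)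
    {D : Finset I} (hD : LocP A P D) {F : Finset (I × V)} (hF : F ∈ NR A X r P D) :
    (extR A X r P D F).card ≤ R.card - D.card := by
  rw [mem_NR] at hF
  have hinj : Set.InjOn Prod.snd (extR A X r P D F : Set (I × V)) := by
    intro p hp q hq e
    rw [mem_coe, mem_extR] at hp hq
    apply Prod.ext _ e
    have e' : p.2 = q.2 := e
    apply hD _ _ p.2 hp.2.1 hq.2.1 hp.1 (by rw [e']; exact hq.1)
    intro d hd
    rw [← hF.2.1, mem_image] at hd
    obtain ⟨t, ht, rfl⟩ := hd
    rw [← (hp.2.2 t ht).2.2, ← (hq.2.2 t ht).2.2, e']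
  have hsub : (extR A X r P D F).image Prod.snd ⊆ R \ (F.image Prod.snd) := by
    intro x hx
    rw [mem_image] at hx
    obtain ⟨p, hp, rfl⟩ := hx
    rw [mem_extR] at hp
    rw [mem_sdiff, mem_image]
    refine ⟨hPR p hp.1, ?_⟩
    rintro ⟨q, hq, e⟩
    apply (hp.2.2 q hq).2.1
    rw [e]
    exact he.refl _
  have hFR : F.image Prod.snd ⊆ R := by
    intro x hx
    rw [mem_image] at hx
    obtain ⟨p, hp, rfl⟩ := hx
    exact hPR p (hF.2.2 hp)
  have := card_le_card hsub
  rw [card_image_of_injOn hinj, card_sdiff_of_subset hFR,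
    card_image_of_injOn (snd_inj he hF.1)] at this
  have hFc : D.card = F.card := by rw [← hF.2.1, card_image_of_injOn (fst_inj hF.1)]
  rw [hFc]
  exact this

/-- the generating function of the embeddings of the sets of labels containing `D` -/
noncomputable def gen (A : SimpleGraph I) (X : SimpleGraph V) (r : V → V → Prop)
    (P : Finset (I × V)) (D : Finset I) (y : ℝ) : ℝ :=
  ∑ S ∈ univ.filter (fun S : Finset I => D ⊆ S),
    (-y) ^ (S.card - D.card) * ((NR A X r P S).card : ℝ)

theorem gen_eq (he : Equivalence r) (D : Finset I) (y : ℝ) :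
    gen A X r P D y = ∑ F ∈ NR A X r P D, ip (PR A X r) y (extR A X r P D F) := by
  have h1 : gen A X r P D y =
      ∑ J ∈ univ.filter (fun J : Finset (I × V) =>
        Comp (PR A X r) J ∧ J ⊆ P ∧ D ⊆ J.image Prod.fst), (-y) ^ (J.card - D.card) := by
    unfold gen
    have h2 : ∀ S : Finset I, (-y) ^ (S.card - D.card) * ((NR A X r P S).card : ℝ) =
        ∑ J ∈ NR A X r P S, (-y) ^ (J.card - D.card) := by
      intro S
      have : ∀ J ∈ NR A X r P S, (-y) ^ (J.card - D.card) = (-y) ^ (S.card - D.card) := by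
        intro J hJ
        rw [mem_NR] at hJ
        rw [← hJ.2.1, card_image_of_injOn (fst_inj hJ.1)]
      rw [sum_congr rfl this, sum_const, nsmul_eq_mul]
      ring
    rw [sum_congr rfl (fun S _ => h2 S)]
    rw [← sum_fiberwise_of_maps_to (s := univ.filter (fun J : Finset (I × V) =>
      Comp (PR A X r) J ∧ J ⊆ P ∧ D ⊆ J.image Prod.fst))
      (t := univ.filter (fun S : Finset I => D ⊆ S)) (g := fun J => J.image Prod.fst)]
    · apply sum_congr rfl
      intro S hS
      rw [mem_filter] at hS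
      apply sum_congr _ (fun _ _ => rfl)
      ext J
      rw [mem_filter, mem_filter, mem_NR]
      constructor
      · rintro ⟨h3, h4, h5⟩
        exact ⟨⟨mem_univ _, h3, h5, by rw [h4]; exact hS.2⟩, h4⟩
      · rintro ⟨⟨_, h3, h5, _⟩, h4⟩
        exact ⟨h3, h4, h5⟩
    · intro J hJ
      rw [mem_filter] at hJ ⊢
      exact ⟨mem_univ _, hJ.2.2.2⟩
  rw [h1]
  rw [← sum_fiberwise_of_maps_to (s := univ.filter (fun J : Finset (I × V) =>
      Comp (PR A X r) J ∧ J ⊆ P ∧ D ⊆ J.image Prod.fst)) (t := NR A X r P D)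
      (g := fun J => J.filter (fun p => p.1 ∈ D))]
  · apply sum_congr rfl
    intro F hF
    have hF' := hF
    rw [mem_NR] at hF'
    have hFD : ∀ p ∈ F, p.1 ∈ D := by
      intro p hp
      rw [← hF'.2.1]
      exact mem_image_of_mem _ hp
    have hFc : F.card = D.card := by
      rw [← hF'.2.1, card_image_of_injOn (fst_inj hF'.1)]
    unfold ip
    rw [← sum_filter]
    apply sum_bij' (fun J _ => J.filter (fun p => p.1 ∉ D)) (fun K _ => F ∪ K)
    · intro J hJ
      rw [mem_filter, mem_filter] at hJ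
      obtain ⟨⟨-, h2, h2', h3⟩, h4⟩ := hJ
      rw [mem_filter, mem_powerset]
      constructor
      · intro p hp
        rw [mem_filter] at hp
        rw [mem_extR]
        refine ⟨h2' hp.1, hp.2, fun q hq => ?_⟩
        have hqJ : q ∈ J := by
          rw [← h4] at hq
          exact (mem_filter.mp hq).1
        apply h2 p hp.1 q hqJ
        intro e
        rw [e] at hp
        exact hp.2 (hFD q hq)
      · intro p hp q hq hne
        exact h2 p (mem_filter.mp hp).1 q (mem_filter.mp hq).1 hne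
    · intro K hK
      rw [mem_filter, mem_powerset] at hK
      obtain ⟨h2, h3⟩ := hK
      have hKD : ∀ p ∈ K, p.1 ∉ D := fun p hp => (mem_extR.mp (h2 hp)).2.1
      rw [mem_filter, mem_filter]
      refine ⟨⟨mem_univ _, ?_, ?_, ?_⟩, ?_⟩
      · intro p hp q hq hne
        rw [mem_union] at hp hq
        rcases hp with hp | hp
        · rcases hq with hq | hq
          · exact hF'.1 p hp q hq hne
          · exact pr_symm he ((mem_extR.mp (h2 hq)).2.2 p hp)
        · rcases hq with hq | hq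
          · exact (mem_extR.mp (h2 hp)).2.2 q hq
          · exact h3 p hp q hq hne
      · exact union_subset hF'.2.2 (fun p hp => (mem_extR.mp (h2 hp)).1)
      · rw [← hF'.2.1]
        exact image_subset_image subset_union_left
      · rw [filter_union, filter_true_of_mem hFD, filter_false_of_mem hKD, union_empty]
    · intro J hJ
      rw [mem_filter] at hJ
      rw [← hJ.2]
      exact filter_union_filter_not_eq _ _
    · intro K hK
      rw [mem_filter, mem_powerset] at hK
      have hKD : ∀ p ∈ K, p.1 ∉ D := fun p hp => (mem_extR.mp (hK.1 hp)).2.1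
      rw [filter_union, filter_false_of_mem (fun p hp h => h (hFD p hp)),
        filter_true_of_mem hKD, empty_union]
    · intro J hJ
      rw [mem_filter] at hJ
      congr 1
      have := card_filter_add_card_filter_not (s := J) (fun p => p.1 ∈ D)
      rw [hJ.2, hFc] at this
      omega
  · intro J hJ
    rw [mem_filter] at hJ
    rw [mem_NR]
    refine ⟨fun p hp q hq hne => hJ.2.1 p (mem_filter.mp hp).1 q (mem_filter.mp hq).1 hne, ?_,
      (filter_subset _ _).trans hJ.2.2.1⟩
    ext d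
    rw [mem_image]
    constructor
    · rintro ⟨p, hp, rfl⟩
      exact (mem_filter.mp hp).2
    · intro hd
      have := hJ.2.2.2 hd
      rw [mem_image] at this
      obtain ⟨p, hp, rfl⟩ := this
      exact ⟨p, mem_filter.mpr ⟨hp, hd⟩, rfl⟩

theorem gen_bound (he : Equivalence r) {R : Finset V} (hPR : ∀ p ∈ P, p.2 ∈ R)
    (hR : R.card ≤ Fintype.card I) {D : Finset I} (hD : LocP A P D) :
    |gen A X r P D (2 + Real.sqrt 2)| ≤
      ((NR A X r P D).card : ℝ) * (1 + Real.sqrt 2) ^ (Fintype.card I - D.card) := by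
  rw [gen_eq he]
  calc |∑ F ∈ NR A X r P D, ip (PR A X r) (2 + Real.sqrt 2) (extR A X r P D F)|
      ≤ ∑ F ∈ NR A X r P D, |ip (PR A X r) (2 + Real.sqrt 2) (extR A X r P D F)| :=
        abs_sum_le_sum_abs _ _
    _ ≤ ∑ F ∈ NR A X r P D, (1 + Real.sqrt 2) ^ (Fintype.card I - D.card) := by
        apply sum_le_sum
        intro F hF
        refine (ip_bound _ _).trans ?_
        apply pow_le_pow_right₀
        · have := Real.sqrt_nonneg 2
          linarith
        · have := card_extR he hPR hD hF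
          omega
    _ = _ := by rw [sum_const, nsmul_eq_mul]

end gen

/-- **The counting bound for coloured quotients.** -/
theorem bound {A : SimpleGraph I} {G H : SimpleGraph V} {rG rH : V → V → Prop}
    (heG : Equivalence rG) (heH : Equivalence rH) {PG PH : Finset (I × V)} {RG RH : Finset V}
    (hPG : ∀ p ∈ PG, p.2 ∈ RG) (hPH : ∀ p ∈ PH, p.2 ∈ RH) (hRG : RG.card ≤ Fintype.card I)
    (hRH : RH.card ≤ Fintype.card I)
    (hkel : ∀ S : Finset I, S ≠ univ → (NR A G rG PG S).card = (NR A H rH PH S).card)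
    (hH : (NR A H rH PH univ).card = 0)
    {D : Finset I} (hDG : LocP A PG D) (hDH : LocP A PH D) (hDu : D ≠ univ) :
    (NR A G rG PG univ).card ^ 2 * 2 ^ (Fintype.card I - D.card) ≤
      4 * (NR A G rG PG D).card ^ 2 := by
  have hs : Real.sqrt 2 * Real.sqrt 2 = 2 := Real.mul_self_sqrt (by norm_num)
  have hs0 : 0 ≤ Real.sqrt 2 := Real.sqrt_nonneg 2
  have h1 := gen_bound (X := G) heG hPG hRG hDG
  have h2 := gen_bound (X := H) heH hPH hRH hDH
  rw [← hkel D hDu] at h2
  have h3 : gen A G rG PG D (2 + Real.sqrt 2) - gen A H rH PH D (2 + Real.sqrt 2) =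
      (-(2 + Real.sqrt 2)) ^ (Fintype.card I - D.card) *
        ((NR A G rG PG univ).card : ℝ) := by
    unfold gen
    rw [← sum_sub_distrib, sum_eq_single univ]
    · rw [hH, card_univ]
      simp
    · intro S _ hS
      rw [hkel S hS, sub_self]
    · intro h
      exact absurd (mem_filter.mpr ⟨mem_univ _, subset_univ _⟩) h
  set N := Fintype.card I - D.card with hNdef
  set a : ℝ := ((NR A G rG PG univ).card : ℝ) with ha
  set e : ℝ := ((NR A G rG PG D).card : ℝ) with he
  have ha0 : 0 ≤ a := Nat.cast_nonneg _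
  have he0 : 0 ≤ e := Nat.cast_nonneg _
  have h4 : (2 + Real.sqrt 2) ^ N * a ≤ 2 * e * (1 + Real.sqrt 2) ^ N := by
    have h5 : |(-(2 + Real.sqrt 2)) ^ N * a| = (2 + Real.sqrt 2) ^ N * a := by
      rw [abs_mul, abs_pow, abs_neg, abs_of_nonneg (by linarith : (0 : ℝ) ≤ 2 + Real.sqrt 2),
        abs_of_nonneg ha0]
    rw [← h5, ← h3]
    calc |gen A G rG PG D (2 + Real.sqrt 2) - gen A H rH PH D (2 + Real.sqrt 2)| ≤
        |gen A G rG PG D (2 + Real.sqrt 2)| + |gen A H rH PH D (2 + Real.sqrt 2)| := abs_sub _ _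
      _ ≤ _ := by linarith
  have h5 : ((2 + Real.sqrt 2) ^ N * a) ^ 2 ≤ (2 * e * (1 + Real.sqrt 2) ^ N) ^ 2 := by
    apply pow_le_pow_left₀ _ h4
    positivity
  have h6 : (2 + Real.sqrt 2) ^ N * (2 + Real.sqrt 2) ^ N =
      2 ^ N * ((1 + Real.sqrt 2) ^ N * (1 + Real.sqrt 2) ^ N) := by
    rw [← mul_pow, ← mul_pow, ← mul_pow]
    congr 1
    nlinarith
  have h7 : (0 : ℝ) < (1 + Real.sqrt 2) ^ N * (1 + Real.sqrt 2) ^ N := by positivity
  have h8 : a ^ 2 * 2 ^ N * ((1 + Real.sqrt 2) ^ N * (1 + Real.sqrt 2) ^ N) ≤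
      4 * e ^ 2 * ((1 + Real.sqrt 2) ^ N * (1 + Real.sqrt 2) ^ N) := by
    calc a ^ 2 * 2 ^ N * ((1 + Real.sqrt 2) ^ N * (1 + Real.sqrt 2) ^ N) =
        a ^ 2 * (2 ^ N * ((1 + Real.sqrt 2) ^ N * (1 + Real.sqrt 2) ^ N)) := by ring
      _ = a ^ 2 * ((2 + Real.sqrt 2) ^ N * (2 + Real.sqrt 2) ^ N) := by rw [← h6]
      _ = ((2 + Real.sqrt 2) ^ N * a) ^ 2 := by ring
      _ ≤ (2 * e * (1 + Real.sqrt 2) ^ N) ^ 2 := h5
      _ = _ := by ring
  have h9 := le_of_mul_le_mul_right h8 h7
  rw [ha, he] at h9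
  exact_mod_cast h9

/-- the embeddings of the labels are embeddings into the quotient -/
theorem NR_le_pe {A : SimpleGraph I} {G : SimpleGraph V} {r : V → V → Prop} {ρ : V → V}
    (hρ : Rep r ρ) (c : V → I) (hc : ∀ x y, r x y ↔ c x = c y)
    (hadj : ∀ x y, c x ≠ c y → (G.Adj x y ↔ A.Adj (c x) (c y)))
    {P : Finset (I × V)} (hP : ∀ p ∈ P, ρ p.2 = p.2) {T : I → I → Prop}
    (hT : ∀ p ∈ P, T p.1 (c p.2)) (D : Finset I) :
    (NR A G r P D).card ≤ ((pe A A D).filter (fun J => ∀ p ∈ J, T p.1 p.2)).card := by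
  have hinj : ∀ p ∈ P, ∀ q ∈ P, (p.1, c p.2) = (q.1, c q.2) → p = q := by
    intro p hp q hq e
    have e1 : p.1 = q.1 := (Prod.ext_iff.mp e).1
    have e2 : c p.2 = c q.2 := (Prod.ext_iff.mp e).2
    apply Prod.ext e1
    rw [← hP p hp, ← hP q hq]
    exact hρ.eq _ _ ((hc _ _).mpr e2)
  apply card_le_card_of_injOn (fun J => J.image (fun p => (p.1, c p.2)))
  · intro J hJ
    rw [mem_coe, mem_NR] at hJ
    rw [mem_coe, mem_filter, mem_pe]
    refine ⟨⟨?_, ?_⟩, ?_⟩
    · intro a ha b hb hab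
      rw [mem_image] at ha hb
      obtain ⟨p, hp, rfl⟩ := ha
      obtain ⟨q, hq, rfl⟩ := hb
      have hpq : p ≠ q := fun e => hab (by rw [e])
      obtain ⟨h1, h2, h3⟩ := hJ.1 p hp q hq hpq
      have h4 : c p.2 ≠ c q.2 := fun e => h2 ((hc _ _).mpr e)
      refine ⟨h1, h4, ?_⟩
      show A.Adj (c p.2) (c q.2) ↔ A.Adj p.1 q.1
      rw [← hadj _ _ h4]
      exact h3
    · rw [image_image]
      exact hJ.2.1
    · intro a ha
      rw [mem_image] at ha
      obtain ⟨p, hp, rfl⟩ := ha
      exact hT p (hJ.2.2 hp)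
  · intro J hJ J' hJ' e
    rw [mem_coe, mem_NR] at hJ hJ'
    have e' : J.image (fun p => (p.1, c p.2)) = J'.image (fun p => (p.1, c p.2)) := e
    ext p
    constructor
    · intro hp
      have : (p.1, c p.2) ∈ J'.image (fun p => (p.1, c p.2)) := by
        rw [← e']
        exact mem_image.mpr ⟨p, hp, rfl⟩
      rw [mem_image] at this
      obtain ⟨q, hq, hqp⟩ := this
      rw [hinj p (hJ.2.2 hp) q (hJ'.2.2 hq) hqp.symm]
      exact hq
    · intro hp
      have : (p.1, c p.2) ∈ J.image (fun p => (p.1, c p.2)) := by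
        rw [e']
        exact mem_image.mpr ⟨p, hp, rfl⟩
      rw [mem_image] at this
      obtain ⟨q, hq, hqp⟩ := this
      rw [hinj p (hJ'.2.2 hp) q (hJ.2.2 hq) hqp.symm]
      exact hq

end Pool.Agent.H71.TQ
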