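import Pool.Agent.H71.TQ.Quot

set_option autoImplicit false
set_option linter.unusedSectionVars false

/-!
# Rooted isomorphism types of classes
-/

namespace Pool.Agent.H71.TQ

open Finset Classical

variable {V : Type} [Fintype V]

/-- `τ` maps the rooted graph `(X[C], w)` onto `(Y[D], z)` -/
def MapsTo (τ : Equiv.Perm V) (X : SimpleGraph V) (C : Finset V) (w : V) (Y : SimpleGraph V)
    (D : Finset V) (z : V) : Prop :=
  (∀ x, x ∈ C ↔ τ x ∈ D) ∧ τ w = z ∧ ∀ x ∈ C, ∀ y ∈ C, (Y.Adj (τ x) (τ y) ↔ X.Adj x y)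

theorem MapsTo.symm {τ : Equiv.Perm V} {X Y : SimpleGraph V} {C D : Finset V} {w z : V}
    (h : MapsTo τ X C w Y D z) : MapsTo τ.symm Y D z X C w := by
  obtain ⟨h1, h2, h3⟩ := h
  refine ⟨fun x => ?_, by rw [← h2, Equiv.symm_apply_apply], fun x hx y hy => ?_⟩
  · rw [h1 (τ.symm x), Equiv.apply_symm_apply]
  · have hx' : τ.symm x ∈ C := by rw [h1, Equiv.apply_symm_apply]; exact hx
    have hy' : τ.symm y ∈ C := by rw [h1, Equiv.apply_symm_apply]; exact hy
    have := h3 _ hx' _ hy'
    rw [Equiv.apply_symm_apply, Equiv.apply_symm_apply] at this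
    exact this.symm

/-- the setoid of rooted graphs -/
def st (V : Type) : Setoid (SimpleGraph V × Finset V × V) where
  r a b := ∃ τ : Equiv.Perm V, MapsTo τ a.1 a.2.1 a.2.2 b.1 b.2.1 b.2.2
  iseqv := by
    refine ⟨fun a => ⟨Equiv.refl V, fun x => Iff.rfl, rfl, fun x _ y _ => Iff.rfl⟩, ?_, ?_⟩
    · rintro a b ⟨τ, h1, h2, h3⟩
      refine ⟨τ.symm, fun x => ?_, by rw [← h2, Equiv.symm_apply_apply], fun x hx y hy => ?_⟩
      · rw [h1 (τ.symm x), Equiv.apply_symm_apply]
      · have hx' : τ.symm x ∈ a.2.1 := by rw [h1, Equiv.apply_symm_apply]; exact hx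
        have hy' : τ.symm y ∈ a.2.1 := by rw [h1, Equiv.apply_symm_apply]; exact hy
        have := h3 _ hx' _ hy'
        rw [Equiv.apply_symm_apply, Equiv.apply_symm_apply] at this
        exact this.symm
    · rintro a b c ⟨τ, h1, h2, h3⟩ ⟨σ, g1, g2, g3⟩
      refine ⟨τ.trans σ, fun x => ?_, ?_, fun x hx y hy => ?_⟩
      · rw [h1 x, g1 (τ x)]
        rfl
      · show σ (τ a.2.2) = c.2.2
        rw [h2, g2]
      · show c.1.Adj (σ (τ x)) (σ (τ y)) ↔ _
        rw [g3 _ ((h1 x).mp hx) _ ((h1 y).mp hy), h3 x hx y hy]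

/-- rooted isomorphism types -/
def Ty (V : Type) : Type := Quotient (st V)

/-- the type of a rooted graph -/
def ty (X : SimpleGraph V) (C : Finset V) (w : V) : Ty V := Quotient.mk (st V) (X, C, w)

theorem ty_eq {X Y : SimpleGraph V} {C D : Finset V} {w z : V} (τ : Equiv.Perm V)
    (h : MapsTo τ X C w Y D z) : ty X C w = ty Y D z :=
  Quotient.sound (s := st V) ⟨τ, h⟩

theorem exists_of_ty {X Y : SimpleGraph V} {C D : Finset V} {w z : V}
    (h : ty X C w = ty Y D z) : ∃ τ : Equiv.Perm V, MapsTo τ X C w Y D z :=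
  Quotient.exact (s := st V) h

theorem MapsTo.card {τ : Equiv.Perm V} {X Y : SimpleGraph V} {C D : Finset V} {w z : V}
    (h : MapsTo τ X C w Y D z) : C.card = D.card := by
  apply card_bij (fun x _ => τ x)
  · intro x hx
    exact (h.1 x).mp hx
  · intro x _ y _ e
    exact τ.injective e
  · intro y hy
    refine ⟨τ.symm y, ?_, Equiv.apply_symm_apply _ _⟩
    rw [h.1, Equiv.apply_symm_apply]
    exact hy

theorem MapsTo.erase {τ : Equiv.Perm V} {X Y : SimpleGraph V} {C D : Finset V} {w z : V}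
    (h : MapsTo τ X C w Y D z) (u : V) : MapsTo τ X (C.erase u) w Y (D.erase (τ u)) z := by
  refine ⟨fun x => ?_, h.2.1, fun x hx y hy => h.2.2 x (mem_erase.mp hx).2 y (mem_erase.mp hy).2⟩
  rw [mem_erase, mem_erase, h.1 x, τ.injective.ne_iff]

theorem MapsTo.root {τ : Equiv.Perm V} {X Y : SimpleGraph V} {C D : Finset V} {w z : V}
    (h : MapsTo τ X C w Y D z) (y : V) : MapsTo τ X C y Y D (τ y) :=
  ⟨h.1, rfl, h.2.2⟩

/-- the order of a type -/
noncomputable def sz : Ty V → ℕ :=
  Quotient.lift (s := st V) (fun a => a.2.1.card) (by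
    rintro a b ⟨τ, h⟩
    exact h.card)

theorem sz_ty (X : SimpleGraph V) (C : Finset V) (w : V) : sz (ty X C w) = C.card := rfl

/-- the number of the elements of the rooted graph `a` whose deletion gives the type `t` -/
noncomputable def cf0 (t : Ty V) (a : SimpleGraph V × Finset V × V) : ℕ :=
  (a.2.1.filter (fun u => u ≠ a.2.2 ∧ ty a.1 (a.2.1.erase u) a.2.2 = t)).card

theorem cf0_eq (t : Ty V) {a b : SimpleGraph V × Finset V × V} {τ : Equiv.Perm V}
    (h : MapsTo τ a.1 a.2.1 a.2.2 b.1 b.2.1 b.2.2) : cf0 t a = cf0 t b := by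
  unfold cf0
  apply card_bij (fun x _ => τ x)
  · intro x hx
    rw [mem_filter] at hx ⊢
    refine ⟨(h.1 x).mp hx.1, ?_, ?_⟩
    · rw [← h.2.1]
      exact fun e => hx.2.1 (τ.injective e)
    · rw [← hx.2.2]
      exact (ty_eq τ (h.erase x)).symm
  · intro x _ y _ e
    exact τ.injective e
  · intro y hy
    rw [mem_filter] at hy
    refine ⟨τ.symm y, ?_, Equiv.apply_symm_apply _ _⟩
    rw [mem_filter]
    refine ⟨?_, ?_, ?_⟩
    · rw [h.1, Equiv.apply_symm_apply]
      exact hy.1
    · intro e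
      apply hy.2.1
      rw [← h.2.1, ← e, Equiv.apply_symm_apply]
    · rw [← hy.2.2]
      have := ty_eq τ (h.erase (τ.symm y))
      rw [Equiv.apply_symm_apply] at this
      exact this

/-- the coefficients -/
noncomputable def cf (s t : Ty V) : ℕ :=
  Quotient.lift (s := st V) (cf0 t) (by
    rintro a b ⟨τ, h⟩
    exact cf0_eq t h) s

/-- the number of the roots of the type `t` of a graph -/
noncomputable def ob0 (a : SimpleGraph V × Finset V × V) : ℕ :=
  (a.2.1.filter (fun y => ty a.1 a.2.1 y = ty a.1 a.2.1 a.2.2)).card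

theorem ob0_eq {a b : SimpleGraph V × Finset V × V} {τ : Equiv.Perm V}
    (h : MapsTo τ a.1 a.2.1 a.2.2 b.1 b.2.1 b.2.2) : ob0 a = ob0 b := by
  unfold ob0
  have h0 : ty a.1 a.2.1 a.2.2 = ty b.1 b.2.1 b.2.2 := ty_eq τ h
  apply card_bij (fun x _ => τ x)
  · intro x hx
    rw [mem_filter] at hx ⊢
    refine ⟨(h.1 x).mp hx.1, ?_⟩
    rw [← h0, ← hx.2]
    exact (ty_eq τ (h.root x)).symm
  · intro x _ y _ e
    exact τ.injective e
  · intro y hy
    rw [mem_filter] at hy
    refine ⟨τ.symm y, ?_, Equiv.apply_symm_apply _ _⟩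
    rw [mem_filter]
    refine ⟨?_, ?_⟩
    · rw [h.1, Equiv.apply_symm_apply]
      exact hy.1
    · rw [h0, ← hy.2]
      have := ty_eq τ (h.root (τ.symm y))
      rw [Equiv.apply_symm_apply] at this
      exact this

/-- the orbit numbers -/
noncomputable def ob : Ty V → ℕ :=
  Quotient.lift (s := st V) ob0 (by
    rintro a b ⟨τ, h⟩
    exact ob0_eq h)

/-- the class of `w` -/
noncomputable def cls (r : V → V → Prop) (w : V) : Finset V := univ.filter (fun y => r w y)

theorem mem_cls {r : V → V → Prop} {w y : V} : y ∈ cls r w ↔ r w y := by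
  unfold cls
  rw [mem_filter]
  exact and_iff_right (mem_univ _)

theorem cls_eq {r : V → V → Prop} (he : Equivalence r) {w y : V} (h : r w y) :
    cls r w = cls r y := by
  ext z
  rw [mem_cls, mem_cls]
  exact ⟨fun h1 => he.trans (he.symm h) h1, fun h1 => he.trans h h1⟩

/-- the colour of a vertex: the rooted type of its class -/
noncomputable def cl (X : SimpleGraph V) (r : V → V → Prop) (w : V) : Ty V := ty X (cls r w) w

/-- the colour after the deletion of `u` -/
noncomputable def clu (X : SimpleGraph V) (r : V → V → Prop) (u w : V) : Ty V :=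
  ty X ((cls r w).erase u) w

theorem isCls (X : SimpleGraph V) {r : V → V → Prop} (he : Equivalence r) :
    Cls r (cl X r) (clu X r) cf sz where
  eqv := he
  far := by
    intro w u h
    unfold clu cl
    rw [erase_eq_of_notMem (fun h' => h (mem_cls.mp h'))]
  count := by
    intro w c
    show _ = cf0 c (X, cls r w, w)
    unfold cf0
    congr 1
    ext u
    rw [mem_filter, mem_filter, mem_cls]
    constructor
    · rintro ⟨_, h1, h2, h3⟩
      exact ⟨h2, h1, h3⟩
    · rintro ⟨h2, h1, h3⟩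
      exact ⟨mem_univ _, h1, h2, h3⟩
  size := fun w => rfl
  step := by
    intro c c' h
    induction c using Quotient.inductionOn with
    | h a =>
      have h1 : cf0 c' a ≠ 0 := h
      unfold cf0 at h1
      rw [card_ne_zero] at h1
      obtain ⟨u, hu⟩ := h1
      rw [mem_filter] at hu
      rw [← hu.2.2]
      show a.2.1.card = (a.2.1.erase u).card + 1
      exact (card_erase_add_one hu.1).symm

theorem orb_eq (X : SimpleGraph V) {r : V → V → Prop} (he : Equivalence r) (w : V) :
    (univ.filter (fun y => r w y ∧ cl X r y = cl X r w)).card = ob (cl X r w) := by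
  show _ = ob0 (X, cls r w, w)
  unfold ob0
  congr 1
  ext y
  rw [mem_filter, mem_filter, mem_cls]
  constructor
  · rintro ⟨_, h1, h2⟩
    refine ⟨h1, ?_⟩
    unfold cl at h2
    rw [← cls_eq he h1] at h2
    exact h2
  · rintro ⟨h1, h2⟩
    refine ⟨mem_univ _, h1, ?_⟩
    unfold cl
    rw [← cls_eq he h1]
    exact h2

theorem orb_pos (X : SimpleGraph V) {r : V → V → Prop} (he : Equivalence r) (w : V) :
    0 < ob (cl X r w) := by
  rw [← orb_eq X he w]
  exact card_pos.mpr ⟨w, mem_filter.mpr ⟨mem_univ _, he.refl w, rfl⟩⟩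

end Pool.Agent.H71.TQ
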